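import Pool.Agent.Y396.Compare

set_option autoImplicit false

namespace Pool.Agent.Y396

open SimpleGraph MulAction Pool.Agent.Helper999.HM

universe u v w

theorem conn_chain {V : Type u} {Y : SimpleGraph V} {P : ℕ → Set V}
    (hP : ∀ j, (Y.induce (P j)).Connected)
    (hadj : ∀ j, ∃ a ∈ P j, ∃ b ∈ P (j + 1), Y.Adj a b) (m : ℕ) :
    (Y.induce {v | ∃ j, j < m + 1 ∧ v ∈ P j}).Connected := by
  induction m with
  | zero =>
    have : {v | ∃ j, j < 0 + 1 ∧ v ∈ P j} = P 0 := by
      ext v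
      constructor
      · rintro ⟨j, hj, hv⟩
        obtain rfl : j = 0 := by omega
        exact hv
      · intro hv
        exact ⟨0, by omega, hv⟩
    rw [this]
    exact hP 0
  | succ m ih =>
    have : {v | ∃ j, j < m + 1 + 1 ∧ v ∈ P j} = {v | ∃ j, j < m + 1 ∧ v ∈ P j} ∪ P (m + 1) := by
      ext v
      constructor
      · rintro ⟨j, hj, hv⟩
        by_cases h : j = m + 1
        · subst h
          exact Or.inr hv
        · exact Or.inl ⟨j, by omega, hv⟩
      · rintro (⟨j, hj, hv⟩ | hv)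
        · exact ⟨j, by omega, hv⟩
        · exact ⟨m + 1, by omega, hv⟩
    rw [this]
    obtain ⟨a, ha, b, hb, hab⟩ := hadj m
    exact conn_union ih (hP (m + 1)) ⟨m, by omega, ha⟩ hb hab

theorem conj_zpowers {Γ : Type u} [Group Γ] [Finite Γ] {K : Subgroup Γ} {t : Γ}
    (h : ∀ x ∈ K, t * x * t⁻¹ ∈ K) : ∀ x ∈ K, t⁻¹ * x * t ∈ K := by
  have hpow : ∀ n : ℕ, ∀ x ∈ K, t ^ n * x * (t ^ n)⁻¹ ∈ K := by
    intro n
    induction n with
    | zero =>
      intro x hx
      simpa using hx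
    | succ n ih =>
      intro x hx
      have h1 := h _ (ih x hx)
      have h2 : t * (t ^ n * x * (t ^ n)⁻¹) * t⁻¹ = t ^ (n + 1) * x * (t ^ (n + 1))⁻¹ := by
        rw [pow_succ']
        group
      rwa [h2] at h1
  intro x hx
  have hpos := orderOf_pos t
  have h1 := hpow (orderOf t - 1) x hx
  have h2 : t ^ (orderOf t - 1) = t⁻¹ := by
    have h3 : t ^ (orderOf t - 1) * t = 1 := by
      rw [← pow_succ, Nat.sub_add_cancel hpos, pow_orderOf_eq_one]
    exact eq_inv_of_mul_eq_one_left h3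
  rw [h2, inv_inv] at h1
  exact h1

/-- neighbours of the identity in a Cayley graph normalise each other's cyclic groups -/
theorem normalise {Γ : Type u} [Group Γ] [Finite Γ] {N k : ℕ}
    (hG : BigPrimes N (Nat.card Γ)) (hN : 2 ^ k ≤ N) (Z : SimpleGraph Γ)
    (hadj : ∀ g a b : Γ, Z.Adj a b → Z.Adj (g * a) (g * b)) (hno : ¬ HasKMinor Z k)
    {s t : Γ} (hs : Z.Adj 1 s) (ht : Z.Adj 1 t) : t⁻¹ * s * t ∈ Subgroup.zpowers s := by
  set K := Subgroup.zpowers s with hK
  have hstep : ∀ a : Γ, Z.Adj a (a * s) := fun a => by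
    have := hadj a 1 s hs
    rwa [mul_one] at this
  have hfib : ∀ a b : Γ, (a : Γ ⧸ K) = b →
      Relation.ReflTransGen (fun x y => Z.Adj x y ∧ (x : Γ ⧸ K) = y) a b := by
    intro a b hab
    rw [QuotientGroup.eq] at hab
    obtain ⟨n, hn⟩ := (Subgroup.mem_zpowers_iff).1 hab
    have hmem := (mem_powers_iff_mem_zpowers).2 hab
    obtain ⟨m, hm⟩ := hmem
    have hb : b = a * s ^ m := by
      have : s ^ m = a⁻¹ * b := hm
      rw [this, mul_inv_cancel_left]
    rw [hb]
    clear hb hm hn hab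
    induction m with
    | zero =>
      rw [pow_zero, mul_one]
    | succ m ih =>
      refine ih.tail ⟨?_, ?_⟩
      · rw [pow_succ, ← mul_assoc]
        exact hstep _
      · rw [QuotientGroup.eq]
        have h3 : (a * s ^ m)⁻¹ * (a * s ^ (m + 1)) = s := by
          rw [pow_succ]
          group
        rw [h3]
        exact Subgroup.mem_zpowers s
  have hcmp := comparable (G := Γ) (V := Γ) hG hN (fun g a b h => hadj g a b h) hno
    (fun a : Γ => (a : Γ ⧸ K)) (fun g v => rfl) hfib ht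
  have hst1 : ∀ g : Γ, g ∈ stabilizer Γ ((1 : Γ) : Γ ⧸ K) ↔ g ∈ K := by
    intro g
    rw [mem_stabilizer_iff]
    have h1 : g • ((1 : Γ) : Γ ⧸ K) = ((g * 1 : Γ) : Γ ⧸ K) := rfl
    rw [h1, QuotientGroup.eq, mul_one, mul_one, inv_mem_iff]
  have hst2 : ∀ g : Γ, g ∈ stabilizer Γ ((t : Γ) : Γ ⧸ K) ↔ t⁻¹ * g * t ∈ K := by
    intro g
    rw [mem_stabilizer_iff]
    have h1 : g • ((t : Γ) : Γ ⧸ K) = ((g * t : Γ) : Γ ⧸ K) := rfl
    rw [h1, QuotientGroup.eq, ← inv_mem_iff]
    have h2 : ((g * t)⁻¹ * t)⁻¹ = t⁻¹ * g * t := by group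
    rw [h2]
  rcases hcmp with h | h
  · exact (hst2 s).1 (h ((hst1 s).2 (Subgroup.mem_zpowers s)))
  · refine conj_zpowers ?_ s (Subgroup.mem_zpowers s)
    intro x hx
    refine (hst1 _).1 (h ((hst2 _).2 ?_))
    have h2 : t⁻¹ * (t * x * t⁻¹) * t = x := by group
    rw [h2]
    exact hx

theorem comm_gens {Γ : Type u} [Group Γ] [Finite Γ] {N k : ℕ}
    (hG : BigPrimes N (Nat.card Γ)) (hN : 2 ^ k ≤ N) (hN2 : 2 * k ≤ N) (Z : SimpleGraph Γ)
    (hadj : ∀ g a b : Γ, Z.Adj a b → Z.Adj (g * a) (g * b)) (hno : ¬ HasKMinor Z k)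
    {s t : Γ} (hs : Z.Adj 1 s) (ht : Z.Adj 1 t) : s * t = t * s := by
  by_contra hcomm
  have h1 := normalise hG hN Z hadj hno hs ht
  have h2 := normalise hG hN Z hadj hno ht hs
  set z := s⁻¹ * t⁻¹ * s * t with hz
  have hzs : z ∈ Subgroup.zpowers s := by
    have : z = s⁻¹ * (t⁻¹ * s * t) := by rw [hz]; group
    rw [this]
    exact mul_mem (inv_mem (Subgroup.mem_zpowers s)) h1
  have hzt : z ∈ Subgroup.zpowers t := by
    have : z = (s⁻¹ * t * s)⁻¹ * t := by rw [hz]; group
    rw [this]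
    exact mul_mem (inv_mem h2) (Subgroup.mem_zpowers t)
  have hcs : Commute z s := by
    obtain ⟨n, hn⟩ := Subgroup.mem_zpowers_iff.1 hzs
    rw [← hn]
    exact (Commute.refl s).zpow_left n
  have hct : Commute z t := by
    obtain ⟨n, hn⟩ := Subgroup.mem_zpowers_iff.1 hzt
    rw [← hn]
    exact (Commute.refl t).zpow_left n
  have hz1 : z ≠ 1 := by
    intro h
    apply hcomm
    have h3 : s * t = t * s * z := by rw [hz]; group
    rw [h3, h, mul_one]
  have hord : N ≤ orderOf z :=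
    hG.le (orderOf_dvd_natCard z) (fun h => hz1 (orderOf_eq_one_iff.1 h)) (orderOf_pos z).ne'
  have hkpos : 0 < k := by
    rcases Nat.eq_zero_or_pos k with h | h
    · exfalso
      apply hno
      subst h
      exact ⟨fun i => i.elim0, fun i => i.elim0, fun i => i.elim0, fun i => i.elim0⟩
    · exact h
  -- commutation of powers
  have hst : s * t = t * s * z := by rw [hz]; group
  have hpow : ∀ i : ℕ, s ^ i * t = t * s ^ i * z ^ i := by
    intro i
    induction i with
    | zero => simp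
    | succ i ih =>
      calc s ^ (i + 1) * t = s * (s ^ i * t) := by rw [pow_succ', mul_assoc]
        _ = s * (t * s ^ i * z ^ i) := by rw [ih]
        _ = (s * t) * s ^ i * z ^ i := by group
        _ = t * s * z * s ^ i * z ^ i := by rw [hst]
        _ = t * s * (z * s ^ i) * z ^ i := by group
        _ = t * s * (s ^ i * z) * z ^ i := by rw [(hcs.pow_right i).eq]
        _ = t * s ^ (i + 1) * z ^ (i + 1) := by rw [pow_succ' s, pow_succ' z]; group
  have hinjz : ∀ i j : ℕ, i < N → j < N → z ^ i = z ^ j → i = j := by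
    intro i j hi hj h
    exact pow_injOn_Iio_orderOf (Set.mem_Iio.2 (hi.trans_le hord))
      (Set.mem_Iio.2 (hj.trans_le hord)) h
  have hkey : ∀ c i c' i' : ℕ, c < N → i < N → c' < N → i' < N →
      z ^ c * s ^ i = z ^ c' * s ^ i' → c = c' ∧ i = i' := by
    intro c i c' i' hc hi hc' hi' heq
    have h3 : ∀ c i : ℕ, (z ^ c * s ^ i) * t = t * (z ^ c * s ^ i) * z ^ i := by
      intro c i
      rw [mul_assoc, hpow, ← mul_assoc, ← mul_assoc, (hct.pow_left c).eq]
      group
    have h4 := h3 c i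
    rw [heq, h3 c' i'] at h4
    have h5 : i' = i := hinjz _ _ hi' hi (mul_left_cancel h4)
    subst h5
    exact ⟨hinjz _ _ hc hc' (mul_right_cancel heq), rfl⟩
  have hPQ : ∀ c i d j : ℕ, z ^ c * s ^ i ≠ z ^ d * t * s ^ j := by
    intro c i d j heq
    apply hz1
    have h5 : t = (z ^ d)⁻¹ * (z ^ c * s ^ i) * (s ^ j)⁻¹ := by
      rw [heq]; group
    have h6 : Commute t s := by
      rw [h5]
      have a1 : Commute (z ^ d)⁻¹ s := (hcs.pow_left d).inv_left
      have a2 : Commute (z ^ c) s := hcs.pow_left c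
      have a3 : Commute (s ^ i) s := (Commute.refl s).pow_left i
      have a4 : Commute (s ^ j)⁻¹ s := ((Commute.refl s).pow_left j).inv_left
      exact (a1.mul_left (a2.mul_left a3)).mul_left a4
    rw [hz]
    have h7 : s⁻¹ * t⁻¹ * s * t = s⁻¹ * t⁻¹ * (s * t) := by group
    rw [h7, ← h6.eq]
    group
  apply hno
  have hstep_s : ∀ a : Γ, Z.Adj a (a * s) := fun a => by
    have := hadj a 1 s hs
    rwa [mul_one] at this
  have hstep_t : ∀ a : Γ, Z.Adj a (a * t) := fun a => by
    have := hadj a 1 t ht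
    rwa [mul_one] at this
  refine hasKMinor_of_biclique
    (fun c : Fin k => {v | ∃ i, i < (2 * k - 2) + 1 ∧ v ∈ {v | v = z ^ (c : ℕ) * s ^ i}})
    (fun d : Fin k => {v | ∃ i, i < (2 * k - 2) + 1 ∧
      v ∈ {v | v = z ^ (k - 1 + (d : ℕ)) * t * s ^ i}}) ?_ ?_ ?_ ?_ ?_ ?_
  · intro c
    refine conn_chain (fun j => conn_singleton_val _) ?_ _
    intro j
    refine ⟨_, rfl, _, rfl, ?_⟩
    rw [pow_succ, ← mul_assoc]
    exact hstep_s _
  · intro d
    refine conn_chain (fun j => conn_singleton_val _) ?_ _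
    intro j
    refine ⟨_, rfl, _, rfl, ?_⟩
    rw [pow_succ, ← mul_assoc]
    exact hstep_s _
  · intro c c' hne
    rw [Set.disjoint_left]
    rintro v ⟨i, hi, hv⟩ ⟨i', hi', hv'⟩
    rw [Set.mem_ofPred_eq] at hv hv'
    have h3 := hkey c i c' i' (by omega) (by omega) (by omega) (by omega) (hv.symm.trans hv')
    exact hne (Fin.ext h3.1)
  · intro d d' hne
    rw [Set.disjoint_left]
    rintro v ⟨i, hi, hv⟩ ⟨i', hi', hv'⟩
    rw [Set.mem_ofPred_eq] at hv hv'
    have heq := hv.symm.trans hv'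
    rw [(hct.pow_left _).eq, (hct.pow_left _).eq, mul_assoc, mul_assoc] at heq
    have h3 := hkey _ i _ i' (by omega) (by omega) (by omega) (by omega) (mul_left_cancel heq)
    apply hne
    apply Fin.ext
    omega
  · intro c d
    rw [Set.disjoint_left]
    rintro v ⟨i, hi, hv⟩ ⟨i', hi', hv'⟩
    rw [Set.mem_ofPred_eq] at hv hv'
    exact hPQ _ _ _ _ (hv.symm.trans hv')
  · intro c d
    have hc := c.2
    have hd := d.2
    refine ⟨z ^ (c : ℕ) * s ^ (k - 1 + (d : ℕ) - c), ⟨_, by omega, rfl⟩,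
      z ^ (k - 1 + (d : ℕ)) * t * s ^ (k - 1 + (d : ℕ) - c), ⟨_, by omega, rfl⟩, ?_⟩
    have h3 := hstep_t (z ^ (c : ℕ) * s ^ (k - 1 + (d : ℕ) - c))
    have h4 : z ^ (c : ℕ) * s ^ (k - 1 + (d : ℕ) - c) * t =
        z ^ (k - 1 + (d : ℕ)) * t * s ^ (k - 1 + (d : ℕ) - c) := by
      have h5 : k - 1 + (d : ℕ) = c + (k - 1 + (d : ℕ) - c) := by omega
      set i := k - 1 + (d : ℕ) - c with hi
      rw [h5, pow_add, mul_assoc, hpow]
      have h6 : Commute (z ^ i) (t * s ^ i) :=
        (hct.pow_left i).mul_right ((hcs.pow_left i).pow_right i)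
      rw [← h6.eq]
      group
    rwa [h4] at h3

/-- Claim 3: a group with a connected Cayley graph without large complete minors is commutative,
if its order has no small prime factor -/
theorem comm_of_cayley {Γ : Type u} [Group Γ] [Finite Γ] {N k : ℕ}
    (hG : BigPrimes N (Nat.card Γ)) (hN : 2 ^ k ≤ N) (hN2 : 2 * k ≤ N) (Z : SimpleGraph Γ)
    (hadj : ∀ g a b : Γ, Z.Adj a b → Z.Adj (g * a) (g * b)) (hconn : Z.Connected)
    (hno : ¬ HasKMinor Z k) (a b : Γ) : a * b = b * a := by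
  have hgen : ∀ K : Subgroup Γ, (∀ s, Z.Adj 1 s → s ∈ K) → ∀ x : Γ, x ∈ K := by
    intro K hK x
    obtain ⟨w⟩ := hconn.preconnected 1 x
    have key : ∀ (u v : Γ) (w : Z.Walk u v), u ∈ K → v ∈ K := by
      intro u v w
      induction w with
      | nil => exact id
      | @cons u v _ h _ ih =>
        intro hu
        apply ih
        have h1 := hadj u⁻¹ _ _ h
        rw [inv_mul_cancel] at h1
        have h2 := hK _ h1
        have h3 := mul_mem hu h2
        rwa [mul_inv_cancel_left] at h3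
    exact key _ _ w (one_mem K)
  have h1 : ∀ s, Z.Adj 1 s → s ∈ Subgroup.center Γ := by
    intro s hs
    rw [Subgroup.mem_center_iff]
    intro g
    have h2 := hgen (Subgroup.centralizer {s}) (by
      intro t ht
      rw [Subgroup.mem_centralizer_iff]
      intro h hh
      rw [Set.mem_singleton_iff] at hh
      subst hh
      exact comm_gens hG hN hN2 Z hadj hno hs ht) g
    rw [Subgroup.mem_centralizer_iff] at h2
    exact (h2 s rfl).symm
  have h2 := hgen _ h1 b
  rw [Subgroup.mem_center_iff] at h2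
  exact h2 a

end Pool.Agent.Y396
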