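import Pool.Agent.Y396.WClass

set_option autoImplicit false

namespace Pool.Agent.Y396

theorem InW.pi_fin : ∀ (n : ℕ) (A : Fin n → Type) [∀ i, Group (A i)], (∀ i, InW (A i)) →
    InW (∀ i, A i) := by
  intro n
  induction n with
  | zero =>
    intro A _ _
    have : Subsingleton (∀ i, A i) := ⟨fun f g => funext fun i => i.elim0⟩
    exact InW.cyclic _
  | succ n ih =>
    intro A _ h
    refine InW.iso _ _ (InW.prod _ _ (h 0) (ih (fun i => A i.succ) (fun i => h i.succ))) ⟨?_⟩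
    exact
      { toFun := fun p => Fin.cons p.1 p.2
        invFun := fun f => (f 0, fun i => f i.succ)
        left_inv := fun p => rfl
        right_inv := fun f => by
          funext i
          exact Fin.cases rfl (fun i => rfl) i
        map_mul' := fun p q => by
          funext i
          exact Fin.cases rfl (fun i => rfl) i }

theorem InW.pi (ι : Type) [Finite ι] (A : ι → Type) [∀ i, Group (A i)] (h : ∀ i, InW (A i)) :
    InW (∀ i, A i) := by
  obtain ⟨n, ⟨e⟩⟩ := Finite.exists_equiv_fin ι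
  refine InW.iso _ _ (InW.pi_fin n (fun i => A (e.symm i)) (fun i => h _)) ⟨?_⟩
  exact MulEquiv.symm { Equiv.piCongrLeft' A e with map_mul' := fun _ _ => rfl }

theorem InW.of_comm (G : Type) [Group G] [Finite G] (h : ∀ a b : G, a * b = b * a) : InW G := by
  let inst : CommGroup G := { ‹Group G› with mul_comm := h }
  obtain ⟨ι, hι, n, hn, ⟨e⟩⟩ := CommGroup.equiv_prod_multiplicative_zmod_of_finite G
  have : ∀ i, NeZero (n i) := fun i => ⟨by have := hn i; omega⟩
  refine InW.iso _ _ (InW.pi ι (fun i => Multiplicative (ZMod (n i))) (fun i => InW.cyclic _))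
    ⟨e.symm⟩

/-- a Kaloujnine-Krasner type isomorphism -/
theorem wreath_iso {G A : Type} [Group G] [Group A] (H : Subgroup G) [hn : H.Normal] (ρ : G → A)
    (hmul : ∀ x ∈ H, ∀ y ∈ H, ρ (x * y) = ρ x * ρ y)
    (hker : ∀ h ∈ H, (∀ q : G ⧸ H, ρ (q.out⁻¹ * h * q.out) = 1) → h = 1)
    (hsurj : ∀ f : G ⧸ H → A, ∃ h ∈ H, ∀ q : G ⧸ H, ρ (q.out⁻¹ * h * q.out) = f q) :
    Nonempty (G ≃* ((G ⧸ H) → A) ⋊[mulAutArrow] (G ⧸ H)) := by
  have hout : ∀ q : G ⧸ H, ((q.out : G) : G ⧸ H) = q := fun q => Quotient.out_eq' q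
  have hmem : ∀ (g : G) (q : G ⧸ H), q.out⁻¹ * g * ((g : G ⧸ H)⁻¹ * q).out ∈ H := by
    intro g q
    rw [← QuotientGroup.eq_one_iff]
    rw [QuotientGroup.mk_mul, QuotientGroup.mk_mul, QuotientGroup.mk_inv, hout, hout]
    group
  have hρ1 : ρ 1 = 1 := by
    have h1 := hmul 1 (one_mem H) 1 (one_mem H)
    rw [mul_one] at h1
    exact left_eq_mul.1 h1
  let Ψ : G →* ((G ⧸ H) → A) ⋊[mulAutArrow] (G ⧸ H) :=
    { toFun := fun g => ⟨fun q => ρ (q.out⁻¹ * g * ((g : G ⧸ H)⁻¹ * q).out), (g : G ⧸ H)⟩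
      map_one' := by
        refine SemidirectProduct.ext ?_ rfl
        funext q
        have h2 : (q.out⁻¹ * 1 * (((1 : G) : G ⧸ H)⁻¹ * q).out : G) = 1 := by
          rw [QuotientGroup.mk_one, inv_one, one_mul]
          group
        change ρ (q.out⁻¹ * 1 * (((1 : G) : G ⧸ H)⁻¹ * q).out) = 1
        rw [h2, hρ1]
      map_mul' := by
        intro g h
        refine SemidirectProduct.ext ?_ rfl
        funext q
        change ρ (q.out⁻¹ * (g * h) * (((g * h : G) : G ⧸ H)⁻¹ * q).out) =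
          ρ (q.out⁻¹ * g * ((g : G ⧸ H)⁻¹ * q).out) *
          ρ (((g : G ⧸ H)⁻¹ * q).out⁻¹ * h * ((h : G ⧸ H)⁻¹ * ((g : G ⧸ H)⁻¹ * q)).out)
        rw [← hmul _ (hmem g q) _ (hmem h _)]
        congr 1
        have h3 : ((g * h : G) : G ⧸ H)⁻¹ * q = (h : G ⧸ H)⁻¹ * ((g : G ⧸ H)⁻¹ * q) := by
          rw [QuotientGroup.mk_mul]
          group
        rw [h3]
        group }
  have hΨl : ∀ (g : G) (q : G ⧸ H),
      (Ψ g).left q = ρ (q.out⁻¹ * g * ((g : G ⧸ H)⁻¹ * q).out) := fun _ _ => rfl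
  have hΨr : ∀ g : G, (Ψ g).right = (g : G ⧸ H) := fun _ => rfl
  have hΨH : ∀ h ∈ H, ∀ q : G ⧸ H, (Ψ h).left q = ρ (q.out⁻¹ * h * q.out) := by
    intro h hh q
    rw [hΨl, (QuotientGroup.eq_one_iff h).2 hh, inv_one, one_mul]
  refine ⟨MulEquiv.ofBijective Ψ ⟨?_, ?_⟩⟩
  · rw [injective_iff_map_eq_one]
    intro g hg
    have h1 : g ∈ H := by
      rw [← QuotientGroup.eq_one_iff, ← hΨr, hg]
      rfl
    refine hker g h1 (fun q => ?_)
    rw [← hΨH g h1, hg]
    rfl
  · intro y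
    obtain ⟨g₀, hg₀⟩ := QuotientGroup.mk_surjective y.right
    obtain ⟨h, hh, hh'⟩ := hsurj (y.left * (Ψ g₀).left⁻¹)
    refine ⟨h * g₀, ?_⟩
    rw [map_mul]
    refine SemidirectProduct.ext ?_ ?_
    · rw [SemidirectProduct.mul_left]
      have h1 : (Ψ h).right = 1 := by
        rw [hΨr]
        exact (QuotientGroup.eq_one_iff h).2 hh
      rw [h1, map_one]
      have h2 : (Ψ h).left = y.left * (Ψ g₀).left⁻¹ := by
        funext q
        rw [hΨH h hh, hh']
      rw [h2]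
      exact inv_mul_cancel_right _ _
    · rw [SemidirectProduct.mul_right, hΨr, hΨr, (QuotientGroup.eq_one_iff h).2 hh, one_mul, hg₀]

end Pool.Agent.Y396
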