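import Pool.Agent.Y396.Stab
import Pool.Agent.Y396.Wreath

set_option autoImplicit false

namespace Pool.Agent.Y396

open SimpleGraph MulAction Pool.Agent.Helper999.HM

universe u v

theorem pinv1 {V : Type u} (σ : Equiv.Perm V) (a : V) : σ (σ⁻¹ a) = a := σ.apply_symm_apply a

theorem pinv2 {V : Type u} (σ : Equiv.Perm V) (a : V) : σ⁻¹ (σ a) = a := σ.symm_apply_apply a

/-- the group of colour preserving automorphisms -/
def autC {V C : Type} (X : SimpleGraph V) (col : V → C) : Subgroup (Equiv.Perm V) where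
  carrier := {σ | (∀ a b, X.Adj (σ a) (σ b) ↔ X.Adj a b) ∧ ∀ a, col (σ a) = col a}
  mul_mem' := by
    rintro σ τ ⟨h1, h2⟩ ⟨h3, h4⟩
    refine ⟨fun a b => ?_, fun a => ?_⟩
    · rw [Equiv.Perm.mul_apply, Equiv.Perm.mul_apply, h1, h3]
    · rw [Equiv.Perm.mul_apply, h2, h4]
  one_mem' := ⟨fun _ _ => Iff.rfl, fun _ => rfl⟩
  inv_mem' := by
    rintro σ ⟨h1, h2⟩
    refine ⟨fun a b => ?_, fun a => ?_⟩
    · rw [← h1 (σ⁻¹ a) (σ⁻¹ b), pinv1, pinv1]
    · rw [← h2 (σ⁻¹ a), pinv1]

/-- the automorphisms fixing everything outside `T` -/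
def suppC {V C : Type} (X : SimpleGraph V) (col : V → C) (T : Set V) :
    Subgroup (Equiv.Perm V) where
  carrier := {σ | σ ∈ autC X col ∧ ∀ v, v ∉ T → σ v = v}
  mul_mem' := by
    rintro σ τ ⟨h1, h2⟩ ⟨h3, h4⟩
    refine ⟨mul_mem h1 h3, fun v hv => ?_⟩
    rw [Equiv.Perm.mul_apply, h4 v hv, h2 v hv]
  one_mem' := ⟨one_mem _, fun _ _ => rfl⟩
  inv_mem' := by
    rintro σ ⟨h1, h2⟩
    refine ⟨inv_mem h1, fun v hv => ?_⟩
    rw [Equiv.Perm.inv_eq_iff_eq, h2 v hv]

theorem suppC_le {V C : Type} (X : SimpleGraph V) (col : V → C) (T : Set V) :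
    suppC X col T ≤ autC X col := fun _ h => h.1

theorem suppC_maps {V C : Type} {X : SimpleGraph V} {col : V → C} {T : Set V}
    {σ : Equiv.Perm V} (hσ : σ ∈ suppC X col T) (v : V) : σ v ∈ T ↔ v ∈ T := by
  constructor
  · intro h
    by_contra hv
    rw [hσ.2 v hv] at h
    exact hv h
  · intro hv
    by_contra h
    have h1 := hσ.2 _ h
    have h2 := σ.injective h1
    rw [h2] at h
    exact h hv

theorem fin_aut {V C : Type} [Finite V] {X : SimpleGraph V} {col : V → C} (h : V → V)
    (hinj : Function.Injective h) (hadj : ∀ a b, X.Adj a b → X.Adj (h a) (h b))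
    (hcol : ∀ a, col (h a) = col a) : ∃ σ ∈ autC X col, ∀ v, σ v = h v := by
  have hbij : Function.Bijective h := Finite.injective_iff_bijective.1 hinj
  set σ : Equiv.Perm V := Equiv.ofBijective h hbij with hσ
  have hσv : ∀ v, σ v = h v := fun _ => rfl
  have hpow : ∀ (n : ℕ) (a b : V), X.Adj a b → X.Adj ((σ ^ n) a) ((σ ^ n) b) := by
    intro n
    induction n with
    | zero => exact fun a b h => h
    | succ n ih =>
      intro a b hab
      rw [pow_succ', Equiv.Perm.mul_apply, Equiv.Perm.mul_apply, hσv, hσv]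
      exact hadj _ _ (ih a b hab)
  have hinv : σ ^ (orderOf σ - 1) = σ⁻¹ := by
    have hpos := orderOf_pos σ
    have h3 : σ ^ (orderOf σ - 1) * σ = 1 := by
      rw [← pow_succ, Nat.sub_add_cancel hpos, pow_orderOf_eq_one]
    exact eq_inv_of_mul_eq_one_left h3
  refine ⟨σ, ⟨fun a b => ⟨fun hab => ?_, fun hab => hadj a b hab⟩, hcol⟩, hσv⟩
  have h1 := hpow (orderOf σ - 1) _ _ hab
  rwa [hinv, pinv2, pinv2] at h1

theorem cutlem {V C : Type} [Finite V] {X : SimpleGraph V} {col : V → C} {g : Equiv.Perm V}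
    (hg : g ∈ autC X col) {T : Set V} (hT : ∀ v ∈ T, g v ∈ T)
    (hfix : ∀ t ∈ T, ∀ f, f ∉ T → X.Adj t f → g f = f) :
    ∃ σ ∈ suppC X col T, ∀ v ∈ T, σ v = g v := by
  classical
  obtain ⟨σ, hσ, hσv⟩ := fin_aut (X := X) (col := col) (fun v => if v ∈ T then g v else v) (by
      intro a b hab
      by_cases ha : a ∈ T <;> by_cases hb : b ∈ T
      · simp only [if_pos ha, if_pos hb] at hab
        exact g.injective hab
      · simp only [if_pos ha, if_neg hb] at hab
        exact absurd (hab ▸ hT a ha) hb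
      · simp only [if_neg ha, if_pos hb] at hab
        exact absurd (hab ▸ hT b hb) ha
      · simp only [if_neg ha, if_neg hb] at hab
        exact hab) (by
      intro a b hab
      by_cases ha : a ∈ T <;> by_cases hb : b ∈ T
      · simp only [if_pos ha, if_pos hb]
        exact (hg.1 a b).2 hab
      · simp only [if_pos ha, if_neg hb]
        have h1 := (hg.1 a b).2 hab
        rwa [hfix a ha b hb hab] at h1
      · simp only [if_neg ha, if_pos hb]
        have h1 := (hg.1 a b).2 hab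
        rwa [hfix b hb a ha hab.symm] at h1
      · simp only [if_neg ha, if_neg hb]
        exact hab) (by
      intro a
      by_cases ha : a ∈ T
      · simp only [if_pos ha]
        exact hg.2 a
      · simp only [if_neg ha])
  refine ⟨σ, ⟨hσ, fun v hv => ?_⟩, fun v hv => ?_⟩
  · rw [hσv]
    exact if_neg hv
  · rw [hσv]
    exact if_pos hv

theorem swap_reach {V C : Type} [Finite V] {X : SimpleGraph V} {col : V → C} {F : Set V}
    (hodd : ¬ 2 ∣ Nat.card (autC X col)) {h : Equiv.Perm V} (hh : h ∈ autC X col)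
    (hF : ∀ f ∈ F, h f = f) (v₀ : V) : (offGraph X F).Reachable v₀ (h v₀) := by
  classical
  by_contra hcon
  set E := offGraph X F with hE
  have hv₀F : v₀ ∉ F := by
    intro hv
    rw [hF v₀ hv] at hcon
    exact hcon (Reachable.refl _)
  have hhF : ∀ v, h v ∈ F → v ∈ F := by
    intro v hv
    have h1 := hF _ hv
    have h2 := h.injective h1
    rwa [h2] at hv
  have hEadj : ∀ a b, E.Adj a b → E.Adj (h a) (h b) := by
    intro a b hab
    exact ⟨(hh.1 a b).2 hab.1, fun h' => hab.2.1 (hhF _ h'), fun h' => hab.2.2 (hhF _ h')⟩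
  have hEadj' : ∀ a b, E.Adj (h a) (h b) → E.Adj a b := by
    intro a b hab
    refine ⟨(hh.1 a b).1 hab.1, fun h' => hab.2.1 ?_, fun h' => hab.2.2 ?_⟩
    · rw [hF _ h']
      exact h'
    · rw [hF _ h']
      exact h'
  have hreach : ∀ a b, E.Reachable a b → E.Reachable (h a) (h b) := by
    rintro a b ⟨w⟩
    induction w with
    | nil => exact Reachable.refl _
    | cons h' _ ih => exact (hEadj _ _ h').reachable.trans ih
  have hreach' : ∀ a b, E.Reachable (h a) b → E.Reachable a (h⁻¹ b) := by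
    intro a b hab
    obtain ⟨w⟩ := hab
    have key : ∀ (u b : V) (w : E.Walk u b), E.Reachable (h⁻¹ u) (h⁻¹ b) := by
      intro u b w
      induction w with
      | nil => exact Reachable.refl _
      | @cons u v _ h' _ ih =>
        refine Reachable.trans (Adj.reachable (hEadj' _ _ ?_)) ih
        rwa [pinv1, pinv1]
    have h1 := key _ _ w
    rwa [pinv2] at h1
  have hD : ∀ v, E.Reachable v₀ v → ¬ E.Reachable (h v₀) v := fun v h1 h2 =>
    hcon (h1.trans h2.symm)
  have hDF : ∀ v, E.Reachable v₀ v → v ∉ F := fun v hv => off_not_mem hv₀F hv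
  have hDF' : ∀ v, E.Reachable (h v₀) v → v ∉ F := fun v hv =>
    off_not_mem (fun h' => hv₀F (hhF _ h')) hv
  have hinv : ∀ f ∈ F, h⁻¹ f = f := by
    intro f hf
    rw [Equiv.Perm.inv_eq_iff_eq, hF f hf]
  let σf : V → V := fun v => if E.Reachable v₀ v then h v else
    if E.Reachable (h v₀) v then h⁻¹ v else v
  have s1 : ∀ v, E.Reachable v₀ v → σf v = h v := fun v hv => if_pos hv
  have s2 : ∀ v, E.Reachable (h v₀) v → σf v = h⁻¹ v := fun v hv => by
    have : ¬ E.Reachable v₀ v := fun h' => hD v h' hv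
    change (if E.Reachable v₀ v then h v else if E.Reachable (h v₀) v then h⁻¹ v else v) = _
    rw [if_neg this, if_pos hv]
  have s3 : ∀ v, ¬ E.Reachable v₀ v → ¬ E.Reachable (h v₀) v → σf v = v := fun v h1 h2 => by
    change (if E.Reachable v₀ v then h v else if E.Reachable (h v₀) v then h⁻¹ v else v) = _
    rw [if_neg h1, if_neg h2]
  have sF : ∀ v ∈ F, σf v = v := fun v hv => s3 v (fun h' => hDF v h' hv) (fun h' => hDF' v h' hv)
  have hinvol : ∀ v, σf (σf v) = v := by
    intro v
    by_cases h1 : E.Reachable v₀ v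
    · rw [s1 v h1, s2 _ (hreach _ _ h1), pinv2]
    · by_cases h2 : E.Reachable (h v₀) v
      · rw [s2 v h2, s1 _ (hreach' _ _ h2), pinv1]
      · rw [s3 v h1 h2, s3 v h1 h2]
  have hinj : Function.Injective σf := by
    intro a b hab
    rw [← hinvol a, hab, hinvol b]
  have hinvaut : h⁻¹ ∈ autC X col := inv_mem hh
  obtain ⟨σ, hσ, hσv⟩ := fin_aut (X := X) (col := col) σf hinj (by
    intro a b hab
    by_cases ha : E.Reachable v₀ a
    · by_cases hbF : b ∈ F
      · rw [s1 a ha, sF b hbF]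
        have h1 := (hh.1 a b).2 hab
        rwa [hF b hbF] at h1
      · have hab' : E.Adj a b := ⟨hab, hDF a ha, hbF⟩
        rw [s1 a ha, s1 b (ha.trans hab'.reachable)]
        exact (hh.1 a b).2 hab
    · by_cases ha' : E.Reachable (h v₀) a
      · by_cases hbF : b ∈ F
        · rw [s2 a ha', sF b hbF]
          have h1 := (hinvaut.1 a b).2 hab
          rwa [hinv b hbF] at h1
        · have hab' : E.Adj a b := ⟨hab, hDF' a ha', hbF⟩
          rw [s2 a ha', s2 b (ha'.trans hab'.reachable)]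
          exact (hinvaut.1 a b).2 hab
      · rw [s3 a ha ha']
        by_cases hb : E.Reachable v₀ b
        · have haF : a ∈ F := by
            by_contra haF
            have hab' : E.Adj b a := ⟨hab.symm, hDF b hb, haF⟩
            exact ha (hb.trans hab'.reachable)
          rw [s1 b hb]
          have h1 := (hh.1 a b).2 hab
          rwa [hF a haF] at h1
        · by_cases hb' : E.Reachable (h v₀) b
          · have haF : a ∈ F := by
              by_contra haF
              have hab' : E.Adj b a := ⟨hab.symm, hDF' b hb', haF⟩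
              exact ha' (hb'.trans hab'.reachable)
            rw [s2 b hb']
            have h1 := (hinvaut.1 a b).2 hab
            rwa [hinv a haF] at h1
          · rw [s3 b hb hb']
            exact hab) (by
    intro a
    by_cases ha : E.Reachable v₀ a
    · rw [s1 a ha]
      exact hh.2 a
    · by_cases ha' : E.Reachable (h v₀) a
      · rw [s2 a ha']
        exact hinvaut.2 a
      · rw [s3 a ha ha'])
  apply hodd
  have hσ2 : (⟨σ, hσ⟩ : autC X col) ^ 2 = 1 := by
    apply Subtype.ext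
    rw [Subgroup.coe_pow, sq]
    ext v
    rw [Equiv.Perm.mul_apply, hσv, hσv, hinvol]
    rfl
  have hσ1 : (⟨σ, hσ⟩ : autC X col) ≠ 1 := by
    intro h1
    have h2 := congrArg Subtype.val h1
    have h3 : σ v₀ = v₀ := by
      change (⟨σ, hσ⟩ : autC X col).1 v₀ = v₀
      rw [h2]
      rfl
    rw [hσv, s1 v₀ (Reachable.refl _)] at h3
    rw [h3] at hcon
    exact hcon (Reachable.refl _)
  rw [← orderOf_eq_prime hσ2 hσ1]
  exact orderOf_dvd_natCard _

/-- the automorphisms supported on `T` form the automorphism group of a coloured graph on `T` -/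
theorem supp_iso {V C : Type} (X : SimpleGraph V) (col : V → C) (T : Set V) :
    Nonempty (autC (X.induce T) (fun t : T => (col t, {f : V | f ∉ T ∧ X.Adj t f})) ≃*
      suppC X col T) := by
  classical
  have hofm : ∀ (σ : Equiv.Perm T) (a : V) (ha : a ∈ T),
      Equiv.Perm.ofSubtype σ a = (σ ⟨a, ha⟩ : V) := fun σ a ha =>
    Equiv.Perm.ofSubtype_apply_of_mem σ ha
  have hofn : ∀ (σ : Equiv.Perm T) (a : V), a ∉ T → Equiv.Perm.ofSubtype σ a = a := fun σ a ha =>
    Equiv.Perm.ofSubtype_apply_of_not_mem σ ha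
  have hmem : ∀ σ : autC (X.induce T) (fun t : T => (col t, {f : V | f ∉ T ∧ X.Adj t f})),
      Equiv.Perm.ofSubtype (σ : Equiv.Perm T) ∈ suppC X col T := by
    rintro ⟨σ, h1, h2⟩
    have h3 : ∀ t : T, ∀ f : V, f ∉ T → (X.Adj (σ t) f ↔ X.Adj t f) := by
      intro t f hf
      have h4 := congrArg Prod.snd (h2 t)
      have h5 := Set.ext_iff.1 h4 f
      constructor
      · intro h
        exact (h5.1 ⟨hf, h⟩).2
      · intro h
        exact (h5.2 ⟨hf, h⟩).2
    refine ⟨⟨fun a b => ?_, fun a => ?_⟩, fun v hv => hofn σ v hv⟩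
    · by_cases ha : a ∈ T <;> by_cases hb : b ∈ T
      · rw [hofm σ a ha, hofm σ b hb]
        exact h1 ⟨a, ha⟩ ⟨b, hb⟩
      · rw [hofm σ a ha, hofn σ b hb]
        exact h3 ⟨a, ha⟩ b hb
      · rw [hofn σ a ha, hofm σ b hb, X.adj_comm, X.adj_comm a b]
        exact h3 ⟨b, hb⟩ a ha
      · rw [hofn σ a ha, hofn σ b hb]
    · by_cases ha : a ∈ T
      · rw [hofm σ a ha]
        exact congrArg Prod.fst (h2 ⟨a, ha⟩)
      · rw [hofn σ a ha]
  let φ : autC (X.induce T) (fun t : T => (col t, {f : V | f ∉ T ∧ X.Adj t f})) →*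
      suppC X col T :=
    (Equiv.Perm.ofSubtype.comp (Subgroup.subtype _)).codRestrict (suppC X col T) hmem
  refine ⟨MulEquiv.ofBijective φ ⟨?_, ?_⟩⟩
  · intro σ τ hστ
    apply Subtype.ext
    exact Equiv.Perm.ofSubtype_injective (congrArg Subtype.val hστ)
  · rintro ⟨σ, hσ⟩
    have hp : ∀ x, σ x ∈ T ↔ x ∈ T := suppC_maps hσ
    refine ⟨⟨σ.subtypePerm hp, ⟨fun a b => hσ.1.1 a b, fun a => ?_⟩⟩, ?_⟩
    · refine Prod.ext (hσ.1.2 a) ?_
      ext f
      constructor
      · rintro ⟨hf, h⟩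
        refine ⟨hf, ?_⟩
        have h1 := hσ.1.1 a f
        rw [hσ.2 f hf] at h1
        exact h1.1 h
      · rintro ⟨hf, h⟩
        refine ⟨hf, ?_⟩
        have h1 := hσ.1.1 a f
        rw [hσ.2 f hf] at h1
        exact h1.2 h
    · apply Subtype.ext
      refine Equiv.ext (fun v => ?_)
      change Equiv.Perm.ofSubtype (σ.subtypePerm hp) v = σ v
      by_cases hv : v ∈ T
      · rw [hofm _ v hv]
        rfl
      · rw [hofn _ v hv, hσ.2 v hv]

/-- an equivariant map to the coset space, constant on the components of `E` -/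
theorem exists_tau {G : Type u} {V : Type v} [Group G] [MulAction G V] (E : SimpleGraph V)
    (hE : ∀ (g : G) (a b : V), E.Adj a b → E.Adj (g • a) (g • b)) (H : Subgroup G)
    (hstab : ∀ (g : G) (v : V), E.Reachable v (g • v) → g ∈ H) :
    ∃ τ : V → G ⧸ H, ∀ (g : G) (v w : V), E.Reachable (g • v) w → τ w = g • τ v := by
  classical
  let s : Setoid V := ⟨fun v w => ∃ g : G, E.Reachable (g • v) w, ⟨fun v => ⟨1, by
      rw [one_smul]⟩, by
      rintro v w ⟨g, hg⟩
      refine ⟨g⁻¹, ?_⟩
      have h1 := reach_smul hE g⁻¹ hg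
      rw [inv_smul_smul] at h1
      exact h1.symm, by
      rintro u v w ⟨g, hg⟩ ⟨g', hg'⟩
      refine ⟨g' * g, ?_⟩
      have h1 := reach_smul hE g' hg
      rw [mul_smul]
      exact h1.trans hg'⟩⟩
  have hex : ∀ v : V, ∃ g : G, E.Reachable (g • (Quotient.mk s v).out) v := fun v =>
    Quotient.exact (Quotient.out_eq (Quotient.mk s v))
  choose γ hγ using hex
  refine ⟨fun v => (γ v : G ⧸ H), ?_⟩
  intro g v w hvw
  have h1 : (Quotient.mk s v) = Quotient.mk s w := Quotient.sound ⟨g, hvw⟩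
  have h2 := hγ v
  have h3 := hγ w
  rw [h1] at h2
  have h4 := reach_smul hE g h2
  rw [← mul_smul] at h4
  have h5 := h4.trans (hvw.trans h3.symm)
  have h6 := reach_smul hE (g * γ v)⁻¹ h5
  rw [inv_smul_smul, ← mul_smul] at h6
  have h7 := hstab _ _ h6
  have h8 : g • (γ v : G ⧸ H) = ((g * γ v : G) : G ⧸ H) := rfl
  rw [h8]
  exact ((QuotientGroup.eq).2 h7).symm

end Pool.Agent.Y396
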