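import Pool.Agent.Y396.Density

set_option autoImplicit false

namespace Pool.Agent.Y396

open SimpleGraph MulAction Pool.Agent.Helper999.HM

universe u v w

/-- no prime below `N` divides `n` -/
def BigPrimes (N n : ℕ) : Prop := ∀ p : ℕ, p.Prime → p ∣ n → N ≤ p

theorem BigPrimes.le {N n d : ℕ} (h : BigPrimes N n) (hd : d ∣ n) (h1 : d ≠ 1) (h0 : d ≠ 0) :
    N ≤ d :=
  le_trans (h _ (Nat.minFac_prime h1) ((Nat.minFac_dvd d).trans hd))
    (Nat.minFac_le (Nat.pos_of_ne_zero h0))

theorem BigPrimes.of_dvd {N n d : ℕ} (h : BigPrimes N n) (hd : d ∣ n) : BigPrimes N d :=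
  fun p hp hpd => h p hp (hpd.trans hd)

theorem orbit_big {G : Type u} [Group G] [Finite G] {N : ℕ} (hG : BigPrimes N (Nat.card G))
    {V : Type v} [MulAction G V] (K : Subgroup G) (y : V) {g : G} (hg : g ∈ K)
    (hgy : g • y ≠ y) : N ≤ (orbit K y).ncard := by
  have h1 : (stabilizer K y).index = (orbit K y).ncard := index_stabilizer K y
  rw [← h1]
  refine hG.le ((Subgroup.index_dvd_card _).trans (Subgroup.card_subgroup_dvd_card K)) ?_ ?_
  · intro h
    rw [Subgroup.index_eq_one] at h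
    have : (⟨g, hg⟩ : K) ∈ stabilizer K y := by rw [h]; trivial
    exact hgy this
  · exact Subgroup.index_ne_zero_of_finite

/-- Claim 1: the stabilizers of adjacent parts are comparable -/
theorem comparable {G : Type u} [Group G] [Finite G] {N k : ℕ}
    (hG : BigPrimes N (Nat.card G)) (hN : 2 ^ k ≤ N) {V : Type v} [Finite V] [MulAction G V]
    {Y : SimpleGraph V} (hadj : ∀ (g : G) (a b : V), Y.Adj a b → Y.Adj (g • a) (g • b))
    (hno : ¬ HasKMinor Y k) {Z : Type w} [Finite Z] [MulAction G Z] (π : V → Z)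
    (hπ : ∀ (g : G) (v : V), π (g • v) = g • π v)
    (hfib : ∀ a b : V, π a = π b → Relation.ReflTransGen (fun x y => Y.Adj x y ∧ π x = π y) a b)
    {a b : V} (hab : Y.Adj a b) :
    stabilizer G (π a) ≤ stabilizer G (π b) ∨ stabilizer G (π b) ≤ stabilizer G (π a) := by
  classical
  by_contra hcon
  rw [not_or, SetLike.not_le_iff_exists, SetLike.not_le_iff_exists] at hcon
  obtain ⟨⟨g₁, hg₁, hg₁'⟩, ⟨g₂, hg₂, hg₂'⟩⟩ := hcon
  have hne : π a ≠ π b := by
    intro h
    rw [h] at hg₁
    exact hg₁' hg₁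
  have hneg : ∀ g : G, g • π a ≠ g • π b := fun g h => hne (smul_left_cancel g h)
  let W : Set Z := {z | ∃ g : G, z = g • π a ∨ z = g • π b}
  let E : SimpleGraph W :=
    { Adj := fun z z' => z ≠ z' ∧ ∃ g : G, (z.1 = g • π a ∧ z'.1 = g • π b) ∨
        (z.1 = g • π b ∧ z'.1 = g • π a)
      symm := ⟨by
        rintro z z' ⟨hne, g, h | h⟩
        · exact ⟨hne.symm, g, Or.inr ⟨h.2, h.1⟩⟩
        · exact ⟨hne.symm, g, Or.inl ⟨h.2, h.1⟩⟩⟩
      loopless := ⟨fun z h => h.1 rfl⟩ }
  have hEmodel : Model E Y (fun z : W => {v | π v = z.1}) := by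
    refine ⟨?_, ?_, ?_⟩
    · rintro ⟨z, hz⟩
      obtain ⟨v₀, hv₀⟩ : ∃ v₀, π v₀ = z := by
        obtain ⟨g, rfl | rfl⟩ := hz
        · exact ⟨g • a, hπ _ _⟩
        · exact ⟨g • b, hπ _ _⟩
      refine conn_of_base (b := v₀) hv₀ ?_
      intro v hv
      have h := hfib v₀ v (hv₀.trans (Eq.symm hv))
      have key : ∀ v, Relation.ReflTransGen (fun x y => Y.Adj x y ∧ π x = π y) v₀ v →
          π v = z ∧ Relation.ReflTransGen (StepIn Y {v | π v = z}) v₀ v := by
        intro v h
        induction h with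
        | refl => exact ⟨hv₀, Relation.ReflTransGen.refl⟩
        | tail _ hst ih =>
          have h5 : π _ = z := hst.2.symm.trans ih.1
          exact ⟨h5, Relation.ReflTransGen.tail ih.2 ⟨hst.1, h5⟩⟩
      exact (key v h).2
    · intro z z' hzz
      rw [Set.disjoint_left]
      intro v hv hv'
      exact hzz (Subtype.ext ((Eq.symm hv).trans hv'))
    · rintro z z' ⟨_, g, ⟨h, h'⟩ | ⟨h, h'⟩⟩
      · exact ⟨g • a, (hπ _ _).trans h.symm, g • b, (hπ _ _).trans h'.symm, hadj _ _ _ hab⟩
      · exact ⟨g • b, (hπ _ _).trans h.symm, g • a, (hπ _ _).trans h'.symm,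
          hadj _ _ _ hab.symm⟩
  have hWne : Nonempty W := ⟨⟨π a, 1, Or.inl (one_smul _ _).symm⟩⟩
  apply hno
  refine HasKMinor.mono (k := k + 2) ?_ (by omega)
  refine hEmodel.hasKMinor (hasKMinor_of_minDegree k W E ?_)
  -- degrees
  have hdeg : ∀ (x y : Z) (g : G) (z : W), z.1 = g • x →
      (∀ h : G, h • x = x → ∃ z' : W, z'.1 = (g * h) • y ∧ E.Adj z z') →
      (orbit (stabilizer G x) y).ncard ≤ (E.neighborSet z).ncard := by
    intro x y g z hz hnb
    rw [← Set.ncard_image_of_injective (E.neighborSet z) Subtype.val_injective]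
    have h1 : ((fun t => g • t) '' (orbit (stabilizer G x) y)).ncard =
        (orbit (stabilizer G x) y).ncard :=
      Set.ncard_image_of_injective _ (MulAction.injective g)
    rw [← h1]
    refine Set.ncard_le_ncard ?_ (Set.toFinite _)
    rintro _ ⟨_, ⟨⟨h, hh⟩, rfl⟩, rfl⟩
    obtain ⟨z', hz', hadj'⟩ := hnb h hh
    refine ⟨z', hadj', ?_⟩
    rw [hz', mul_smul]
    rfl
  intro z
  obtain ⟨g, hg | hg⟩ := z.2
  · refine hN.trans ((orbit_big hG (stabilizer G (π a)) (π b) hg₁ hg₁').trans
      (hdeg (π a) (π b) g z hg ?_))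
    intro h hh
    refine ⟨⟨(g * h) • π b, g * h, Or.inr rfl⟩, rfl, ?_, g * h, Or.inl ⟨?_, rfl⟩⟩
    · intro heq
      apply hneg (g * h)
      rw [mul_smul g h (π a), hh, ← hg, heq]
    · rw [mul_smul, hh, hg]
  · refine hN.trans ((orbit_big hG (stabilizer G (π b)) (π a) hg₂ hg₂').trans
      (hdeg (π b) (π a) g z hg ?_))
    intro h hh
    refine ⟨⟨(g * h) • π a, g * h, Or.inl rfl⟩, rfl, ?_, g * h, Or.inr ⟨?_, rfl⟩⟩
    · intro heq
      apply hneg (g * h)
      rw [mul_smul g h (π b), hh, ← hg, heq]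
    · rw [mul_smul, hh, hg]

/-- an equivariant idempotent with connected fibres -/
structure Part (G : Type u) [Group G] {V : Type v} [MulAction G V] (Y : SimpleGraph V)
    (c : V → V) : Prop where
  equi : ∀ (g : G) (v : V), c (g • v) = g • c v
  idem : ∀ v, c (c v) = c v
  conn : ∀ v, Relation.ReflTransGen (fun a b => Y.Adj a b ∧ c a = c b) v (c v)

theorem Part.fib {G : Type u} [Group G] {V : Type v} [MulAction G V] {Y : SimpleGraph V}
    {c : V → V} (hc : Part G Y c) (a b : V) (hab : c a = c b) :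
    Relation.ReflTransGen (fun x y => Y.Adj x y ∧ c x = c y) a b := by
  have hsym : Std.Symm (fun x y => Y.Adj x y ∧ c x = c y) := ⟨fun x y h => ⟨h.1.symm, h.2.symm⟩⟩
  have h1 := hc.conn a
  have h2 := hc.conn b
  rw [hab] at h1
  exact h1.trans ((Relation.ReflTransGen.stdSymm).symm _ _ h2)

theorem Part.merge {G : Type u} [Group G] {V : Type v} [Finite V] [MulAction G V]
    {Y : SimpleGraph V} (hadj : ∀ (g : G) (a b : V), Y.Adj a b → Y.Adj (g • a) (g • b))
    {c : V → V} (hc : Part G Y c) {x y a b : V} (hnorb : ∀ g : G, g • x ≠ y)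
    (hstab : stabilizer G x ≤ stabilizer G y) (ha : c a = x) (hb : c b = y) (hab : Y.Adj a b) :
    ∃ c' : V → V, Part G Y c' ∧ (Set.range c').ncard < (Set.range c).ncard := by
  classical
  have hx : c x = x := by rw [← ha, hc.idem]
  have hy : c y = y := by rw [← hb, hc.idem]
  let c' : V → V := fun v => if h : ∃ g : G, c v = g • x then h.choose • y else c v
  have F1 : ∀ (v : V) (g : G), c v = g • x → c' v = g • y := by
    intro v g hg
    have hex : ∃ g : G, c v = g • x := ⟨g, hg⟩
    have h1 : c' v = hex.choose • y := dif_pos hex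
    have h2 := hex.choose_spec
    rw [h1]
    have h3 : g⁻¹ * hex.choose ∈ stabilizer G x := by
      rw [mem_stabilizer_iff, mul_smul, ← h2, hg, inv_smul_smul]
    have h4 := mem_stabilizer_iff.1 (hstab h3)
    rw [mul_smul, inv_smul_eq_iff] at h4
    exact h4
  have F2 : ∀ v : V, (∀ g : G, c v ≠ g • x) → c' v = c v := by
    intro v hv
    exact dif_neg (fun ⟨g, hg⟩ => hv g hg)
  have hgy : ∀ g g' : G, g • y ≠ g' • x := by
    intro g g' h
    apply hnorb (g⁻¹ * g')
    rw [mul_smul, ← h, inv_smul_smul]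
  have hsame : ∀ u v, c u = c v → c' u = c' v := by
    intro u v huv
    by_cases h : ∃ g : G, c u = g • x
    · obtain ⟨g, hg⟩ := h
      rw [F1 u g hg, F1 v g (huv.symm.trans hg)]
    · push Not at h
      rw [F2 u h, F2 v (fun g => by rw [← huv]; exact h g), huv]
  refine ⟨c', ⟨?_, ?_, ?_⟩, ?_⟩
  · intro g v
    by_cases h : ∃ g : G, c v = g • x
    · obtain ⟨g', hg'⟩ := h
      rw [F1 v g' hg', F1 (g • v) (g * g') (by rw [hc.equi, hg', mul_smul]), mul_smul]
    · push Not at h
      rw [F2 v h, F2 (g • v), hc.equi]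
      intro g' hg'
      apply h (g⁻¹ * g')
      rw [mul_smul, ← hg', hc.equi, inv_smul_smul]
  · intro v
    by_cases h : ∃ g : G, c v = g • x
    · obtain ⟨g, hg⟩ := h
      rw [F1 v g hg, F2 (g • y), hc.equi, hy]
      intro g'
      rw [hc.equi, hy]
      exact hgy g g'
    · push Not at h
      rw [F2 v h, F2 (c v), hc.idem]
      intro g'
      rw [hc.idem]
      exact h g'
  · intro v
    have hmono : ∀ u w, Relation.ReflTransGen (fun a b => Y.Adj a b ∧ c a = c b) u w →
        Relation.ReflTransGen (fun a b => Y.Adj a b ∧ c' a = c' b) u w := by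
      intro u w h
      exact Relation.ReflTransGen.mono (fun a b hab => ⟨hab.1, hsame _ _ hab.2⟩) _ _ h
    by_cases h : ∃ g : G, c v = g • x
    · obtain ⟨g, hg⟩ := h
      have hga : c (g • a) = g • x := by rw [hc.equi, ha]
      have hgb : c (g • b) = g • y := by rw [hc.equi, hb]
      have h1 := hmono _ _ (hc.fib v (g • a) (hg.trans hga.symm))
      have h2 := hmono _ _ (hc.conn (g • b))
      rw [F1 v g hg]
      rw [hgb] at h2
      refine (h1.tail ⟨hadj g _ _ hab, ?_⟩).trans h2
      rw [F1 _ g hga, F2 (g • b), hgb]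
      intro g'
      rw [hgb]
      exact hgy g g'
    · push Not at h
      rw [F2 v h]
      exact hmono _ _ (hc.conn v)
  · refine Set.ncard_lt_ncard ⟨?_, ?_⟩ (Set.toFinite _)
    · rintro _ ⟨v, rfl⟩
      by_cases h : ∃ g : G, c v = g • x
      · obtain ⟨g, hg⟩ := h
        exact ⟨g • y, by rw [F1 v g hg, hc.equi, hy]⟩
      · push Not at h
        exact ⟨v, (F2 v h).symm⟩
    · intro hsub
      obtain ⟨v, hv⟩ := hsub ⟨x, hx⟩
      by_cases h : ∃ g : G, c v = g • x
      · obtain ⟨g, hg⟩ := h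
        rw [F1 v g hg] at hv
        exact hgy g 1 (by rw [hv, one_smul])
      · push Not at h
        rw [F2 v h] at hv
        exact h 1 (by rw [hv, one_smul])

/-- Claim 2: a connected graph without large complete minor is, up to contracting connected
parts, a Cayley graph of a quotient of the group -/
theorem exists_center {G : Type u} [Group G] [Finite G] {N k : ℕ}
    (hG : BigPrimes N (Nat.card G)) (hN : 2 ^ k ≤ N) {V : Type v} [Finite V] [MulAction G V]
    {Y : SimpleGraph V} (hadj : ∀ (g : G) (a b : V), Y.Adj a b → Y.Adj (g • a) (g • b))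
    (hconn : Y.Connected) (hno : ¬ HasKMinor Y k) :
    ∃ (H : Subgroup G) (_ : H.Normal) (π : V → G ⧸ H), (∀ (g : G) (v : V), π (g • v) = g • π v) ∧
      (∀ a b : V, π a = π b → Relation.ReflTransGen (fun x y => Y.Adj x y ∧ π x = π y) a b) ∧
      ∃ v₀ : V, stabilizer G v₀ = H := by
  classical
  obtain ⟨c, hc, hmin⟩ := Set.exists_min_image {c : V → V | Part G Y c}
    (fun c => (Set.range c).ncard) (Set.toFinite _)
    ⟨id, ⟨fun _ _ => rfl, fun _ => rfl, fun _ => Relation.ReflTransGen.refl⟩⟩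
  have hc : Part G Y c := hc
  obtain ⟨v₀⟩ := hconn.nonempty
  have step : ∀ a b, Y.Adj a b → (∃ g : G, g • c a = c b) ∧
      stabilizer G (c a) = stabilizer G (c b) := by
    intro a b hab
    have hcmp := comparable hG hN hadj hno c hc.equi hc.fib hab
    have horb : ∃ g : G, g • c a = c b := by
      by_contra hcon
      push Not at hcon
      rcases hcmp with h | h
      · obtain ⟨c', hc', hlt⟩ := hc.merge hadj hcon h rfl rfl hab
        exact absurd (hmin c' hc') (by omega)
      · obtain ⟨c', hc', hlt⟩ := hc.merge hadj (x := c b) (y := c a) (fun g hg => hcon g⁻¹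
          (by rw [← hg, inv_smul_smul])) h rfl rfl hab.symm
        exact absurd (hmin c' hc') (by omega)
    refine ⟨horb, ?_⟩
    obtain ⟨g, hg⟩ := horb
    have hcard : Nat.card (stabilizer G (c a)) = Nat.card (stabilizer G (c b)) := by
      have h1 := (stabilizer G (c a)).card_mul_index
      have h2 := (stabilizer G (c b)).card_mul_index
      rw [index_stabilizer] at h1 h2
      have h3 : orbit G (c b) = orbit G (c a) := by
        rw [← hg, orbit_smul]
      rw [h3] at h2
      have h4 : 0 < (orbit G (c a)).ncard := by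
        rw [Set.ncard_pos (Set.toFinite _)]
        exact nonempty_orbit _
      exact Nat.eq_of_mul_eq_mul_right h4 (h1.trans h2.symm)
    rcases hcmp with h | h
    · exact Subgroup.eq_of_le_of_card_ge h hcard.ge
    · exact (Subgroup.eq_of_le_of_card_ge h hcard.le).symm
  have all : ∀ v, (∃ g : G, g • c v₀ = c v) ∧ stabilizer G (c v₀) = stabilizer G (c v) := by
    intro v
    obtain ⟨w⟩ := hconn.preconnected v₀ v
    have key : ∀ (u v : V) (w : Y.Walk u v), (∃ g : G, g • c u = c v) ∧
        stabilizer G (c u) = stabilizer G (c v) := by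
      intro u v w
      induction w with
      | nil => exact ⟨⟨1, one_smul _ _⟩, rfl⟩
      | cons h _ ih =>
        obtain ⟨⟨g, hg⟩, h2⟩ := ih
        obtain ⟨⟨g', hg'⟩, h2'⟩ := step _ _ h
        exact ⟨⟨g * g', by rw [mul_smul, hg', hg]⟩, h2'.trans h2⟩
    exact key v₀ v w
  choose γ hγ using fun v => (all v).1
  have hnormal : (stabilizer G (c v₀)).Normal := by
    refine ⟨?_⟩
    intro n hn g
    have h1 := (all (g • v₀)).2
    rw [h1, hc.equi, mem_stabilizer_iff, mul_smul, mul_smul, inv_smul_smul,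
      mem_stabilizer_iff.1 hn]
  have hiff : ∀ g g' : G, (g : G ⧸ stabilizer G (c v₀)) = g' ↔ g • c v₀ = g' • c v₀ := by
    intro g g'
    rw [QuotientGroup.eq, mem_stabilizer_iff, mul_smul, inv_smul_eq_iff]
    exact eq_comm
  have hπc : ∀ u v, (γ u : G ⧸ stabilizer G (c v₀)) = γ v ↔ c u = c v := by
    intro u v
    rw [hiff, hγ, hγ]
  refine ⟨stabilizer G (c v₀), hnormal, fun v => (γ v : G ⧸ stabilizer G (c v₀)), ?_, ?_,
    c v₀, rfl⟩
  · intro g v
    have h1 : g • (γ v : G ⧸ stabilizer G (c v₀)) = ((g * γ v : G) : G ⧸ stabilizer G (c v₀)) :=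
      rfl
    rw [h1, hiff, hγ, mul_smul, hγ, hc.equi]
  · intro a b hab
    refine Relation.ReflTransGen.mono (fun x y hxy => ?_) _ _ (hc.fib a b ((hπc a b).1 hab))
    exact ⟨hxy.1, (hπc x y).2 hxy.2⟩

end Pool.Agent.Y396
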