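import Pool.Agent.Helper999.HMBasic

set_option autoImplicit false

namespace Pool.Agent.Y396

open SimpleGraph Pool.Agent.Helper999.HM

universe u v

/-- `Φ` is a model of `E` as a minor of `Y` -/
structure Model {W : Type u} {V : Type v} (E : SimpleGraph W) (Y : SimpleGraph V)
    (Φ : W → Set V) : Prop where
  conn : ∀ w, (Y.induce (Φ w)).Connected
  disj : ∀ w w', w ≠ w' → Disjoint (Φ w) (Φ w')
  adj : ∀ w w', E.Adj w w' → ∃ a ∈ Φ w, ∃ b ∈ Φ w', Y.Adj a b

theorem Model.conn_biUnion {W : Type u} {V : Type v} {E : SimpleGraph W} {Y : SimpleGraph V}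
    {Φ : W → Set V} (hΦ : Model E Y Φ) {B : Set W} (hB : (E.induce B).Connected) :
    (Y.induce {v | ∃ w ∈ B, v ∈ Φ w}).Connected := by
  obtain ⟨⟨w₀, hw₀⟩⟩ := hB.nonempty
  obtain ⟨⟨a₀, ha₀⟩⟩ := (hΦ.conn w₀).nonempty
  have hsub : ∀ w ∈ B, Φ w ⊆ {v | ∃ w ∈ B, v ∈ Φ w} := fun w hw v hv => ⟨w, hw, hv⟩
  refine conn_of_base (b := a₀) ⟨w₀, hw₀, ha₀⟩ ?_
  rintro a ⟨w, hw, ha⟩
  have h := step_of_conn hB hw₀ hw
  have key : ∀ w, Relation.ReflTransGen (StepIn E B) w₀ w → ∀ a ∈ Φ w,
      Relation.ReflTransGen (StepIn Y {v | ∃ w ∈ B, v ∈ Φ w}) a₀ a := by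
    intro w h
    induction h with
    | refl =>
      intro a ha
      exact StepIn.mono (hsub w₀ hw₀) (step_of_conn (hΦ.conn w₀) ha₀ ha)
    | tail _ hst ih =>
      intro a ha
      obtain ⟨hadj, hB'⟩ := hst
      obtain ⟨x, hx, y, hy, hxy⟩ := hΦ.adj _ _ hadj
      refine Relation.ReflTransGen.trans (Relation.ReflTransGen.tail (ih x hx)
        ⟨hxy, _, hB', hy⟩) ?_
      exact StepIn.mono (hsub _ hB') (step_of_conn (hΦ.conn _) hy ha)
  exact key w h a ha

theorem Model.hasKMinor {W : Type u} {V : Type v} {E : SimpleGraph W} {Y : SimpleGraph V}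
    {Φ : W → Set V} (hΦ : Model E Y Φ) {k : ℕ} (h : HasKMinor E k) : HasKMinor Y k := by
  obtain ⟨B, h1, h2, h3⟩ := h
  refine ⟨fun i => {v | ∃ w ∈ B i, v ∈ Φ w}, fun i => hΦ.conn_biUnion (h1 i), ?_, ?_⟩
  · intro i j hij
    rw [Set.disjoint_left]
    rintro v ⟨w, hw, hv⟩ ⟨w', hw', hv'⟩
    by_cases hww : w = w'
    · subst hww
      exact Set.disjoint_left.1 (h2 i j hij) hw hw'
    · exact Set.disjoint_left.1 (hΦ.disj w w' hww) hv hv'
  · intro i j hij
    obtain ⟨w, hw, w', hw', hadj⟩ := h3 i j hij
    obtain ⟨a, ha, b, hb, hab⟩ := hΦ.adj _ _ hadj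
    exact ⟨a, ⟨w, hw, ha⟩, b, ⟨w', hw', hb⟩, hab⟩

theorem conn_singleton_val {V : Type u} {Y : SimpleGraph V} (v : V) :
    (Y.induce {w | w = v}).Connected := by
  refine conn_of_base (b := v) rfl ?_
  rintro c rfl
  exact Relation.ReflTransGen.refl

/-- an injective edge preserving map gives a model -/
theorem model_of_inj {W : Type u} {V : Type v} {E : SimpleGraph W} {Y : SimpleGraph V}
    (f : W → V) (hf : Function.Injective f) (hadj : ∀ a b, E.Adj a b → Y.Adj (f a) (f b)) :
    Model E Y (fun w => {v | v = f w}) := by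
  refine ⟨fun w => conn_singleton_val _, ?_, ?_⟩
  · intro w w' hne
    rw [Set.disjoint_left]
    rintro v hv hv'
    rw [Set.mem_ofPred_eq] at hv hv'
    exact hne (hf (hv.symm.trans hv'))
  · intro w w' h
    exact ⟨f w, rfl, f w', rfl, hadj _ _ h⟩

theorem hasKMinor_induce {V : Type u} {Y : SimpleGraph V} {C : Set V} {k : ℕ}
    (h : HasKMinor (Y.induce C) k) : HasKMinor Y k :=
  (model_of_inj (E := Y.induce C) (Y := Y) Subtype.val Subtype.val_injective
    (fun _ _ h => h)).hasKMinor h

/-- the outer neighbourhood of a vertex set -/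
def nbs {V : Type u} (X : SimpleGraph V) (U : Set V) : Set V := {w | w ∉ U ∧ ∃ u ∈ U, X.Adj u w}

theorem hasKMinor_cons {V : Type u} {X : SimpleGraph V} {U : Set V} {k : ℕ}
    (hU : (X.induce U).Connected) (h : HasKMinor (X.induce (nbs X U)) k) :
    HasKMinor X (k + 1) := by
  have hm := model_of_inj (E := X.induce (nbs X U)) (Y := X) Subtype.val Subtype.val_injective
    (fun _ _ h => h)
  obtain ⟨B, h1, h2, h3⟩ := h
  have key : ∀ i, ∀ v ∈ {v | ∃ w ∈ B i, v = (w : V)}, v ∉ U ∧ ∃ u ∈ U, X.Adj u v := by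
    rintro i v ⟨w, _, rfl⟩
    exact w.2
  have hne : ∀ i, ∃ v, v ∈ {v | ∃ w ∈ B i, v = (w : V)} := by
    intro i
    obtain ⟨w, hw⟩ := (h1 i).nonempty
    exact ⟨w, w, hw, rfl⟩
  have hconn : ∀ i, (X.induce {v | ∃ w ∈ B i, v = (w : V)}).Connected := fun i =>
    hm.conn_biUnion (h1 i)
  refine ⟨Fin.cons U (fun i => {v | ∃ w ∈ B i, v = (w : V)}), ?_, ?_, ?_⟩
  · intro i
    refine Fin.cases ?_ (fun i => ?_) i
    · exact hU
    · exact hconn i
  · intro i j
    refine Fin.cases ?_ (fun i => ?_) i <;> refine Fin.cases ?_ (fun j => ?_) j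
    · exact fun h => absurd rfl h
    · intro _
      rw [Fin.cons_zero, Fin.cons_succ, Set.disjoint_left]
      intro v hv hv'
      exact (key j v hv').1 hv
    · intro _
      rw [Fin.cons_zero, Fin.cons_succ, Set.disjoint_left]
      intro v hv' hv
      exact (key i v hv').1 hv
    · intro hij
      rw [Fin.cons_succ, Fin.cons_succ, Set.disjoint_left]
      rintro v ⟨w, hw, rfl⟩ ⟨w', hw', h⟩
      have := Subtype.ext h
      subst this
      exact Set.disjoint_left.1 (h2 i j (fun h => hij (congrArg Fin.succ h))) hw hw'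
  · intro i j
    refine Fin.cases ?_ (fun i => ?_) i <;> refine Fin.cases ?_ (fun j => ?_) j
    · exact fun h => absurd rfl h
    · intro _
      obtain ⟨v, hv⟩ := hne j
      obtain ⟨_, u, hu, huv⟩ := key j v hv
      exact ⟨u, hu, v, hv, huv⟩
    · intro _
      obtain ⟨v, hv⟩ := hne i
      obtain ⟨_, u, hu, huv⟩ := key i v hv
      exact ⟨v, hv, u, hu, huv.symm⟩
    · intro hij
      obtain ⟨a, ha, b, hb, hab⟩ := h3 i j (fun h => hij (congrArg Fin.succ h))
      exact ⟨a, ⟨a, ha, rfl⟩, b, ⟨b, hb, rfl⟩, hab⟩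

section Count

variable {V : Type u} [Fintype V] [DecidableEq V] (X : SimpleGraph V) [DecidableRel X.Adj]

/-- twice the number of edges inside `W` -/
def ecount (W : Finset V) : ℕ := ∑ x ∈ W, (W.filter (X.Adj x)).card

theorem ecount_insert (W : Finset V) (w : V) (hw : w ∉ W) :
    ecount X (insert w W) = ecount X W + 2 * (W.filter (X.Adj w)).card := by
  unfold ecount
  rw [Finset.sum_insert hw]
  have h1 : ((insert w W).filter (X.Adj w)).card = (W.filter (X.Adj w)).card := by
    rw [Finset.filter_insert, if_neg (X.loopless.irrefl w)]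
  have h2 : ∀ x ∈ W, ((insert w W).filter (X.Adj x)).card =
      (W.filter (X.Adj x)).card + (if X.Adj w x then 1 else 0) := by
    intro x hx
    rw [Finset.filter_insert]
    by_cases h : X.Adj x w
    · rw [if_pos h, if_pos h.symm, Finset.card_insert_of_notMem]
      intro h'
      exact hw (Finset.mem_filter.1 h').1
    · rw [if_neg h, if_neg (fun h' => h h'.symm), add_zero]
  rw [h1, Finset.sum_congr rfl h2, Finset.sum_add_distrib, ← Finset.card_filter]
  ring

/-- outer neighbourhood as a finset -/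
def fnb (U : Finset V) : Finset V :=
  Finset.univ.filter (fun w => w ∉ U ∧ ∃ u ∈ U, X.Adj u w)

theorem mem_fnb {U : Finset V} {w : V} : w ∈ fnb X U ↔ w ∉ U ∧ ∃ u ∈ U, X.Adj u w := by
  unfold fnb
  simp

end Count

theorem exists_dense_nbs {V : Type u} [Finite V] (X : SimpleGraph V) (c : ℕ) (hc : 0 < c)
    (hconn : X.Connected) (hdeg : ∀ v, 2 * c ≤ (X.neighborSet v).ncard) :
    ∃ U : Set V, (X.induce U).Connected ∧ (nbs X U).Nonempty ∧
      ∀ w ∈ nbs X U, c ≤ {x | x ∈ nbs X U ∧ X.Adj w x}.ncard := by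
  classical
  have := Fintype.ofFinite V
  have hdeg' : ∀ v, 2 * c ≤ (Finset.univ.filter (X.Adj v)).card := by
    intro v
    have h := hdeg v
    have h2 : (X.neighborSet v) = ((Finset.univ.filter (X.Adj v) : Finset V) : Set V) := by
      ext w
      simp
    rw [h2, Set.ncard_coe_finset] at h
    exact h
  let P : Finset V → Prop := fun U => (X.induce (U : Set V)).Connected ∧
    2 * c * (Uᶜ.card + 1) ≤ ecount X Uᶜ + 2 * (fnb X U).card
  obtain ⟨v₀⟩ := hconn.nonempty
  have hP0 : P {v₀} := by
    refine ⟨?_, ?_⟩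
    · have : ((({v₀} : Finset V)) : Set V) = {v₀} := by simp
      rw [this]
      exact conn_singleton X v₀
    · have h1 : ecount X Finset.univ =
          ecount X ({v₀}ᶜ) + 2 * ((({v₀} : Finset V)ᶜ).filter (X.Adj v₀)).card := by
        rw [← ecount_insert X ({v₀}ᶜ) v₀ (by simp)]
        congr 1
        ext x
        simp only [Finset.mem_univ, Finset.mem_insert, Finset.mem_compl, Finset.mem_singleton,
          true_iff]
        exact em _
      have h2 : fnb X {v₀} = (({v₀} : Finset V)ᶜ).filter (X.Adj v₀) := by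
        ext x
        rw [mem_fnb]
        simp
      have h3 : (({v₀} : Finset V)ᶜ).card + 1 = Fintype.card V := by
        rw [Finset.card_compl, Finset.card_singleton]
        have : 0 < Fintype.card V := Fintype.card_pos_iff.2 ⟨v₀⟩
        omega
      rw [h2, ← h1, h3]
      unfold ecount
      calc 2 * c * Fintype.card V = ∑ x : V, 2 * c := by
            rw [Finset.sum_const, Finset.card_univ, smul_eq_mul, mul_comm]
        _ ≤ _ := Finset.sum_le_sum (fun x _ => hdeg' x)
  obtain ⟨U, hU, hmax⟩ := Finset.exists_max_image (Finset.univ.filter P) Finset.card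
    ⟨{v₀}, Finset.mem_filter.2 ⟨Finset.mem_univ _, hP0⟩⟩
  obtain ⟨hUc, hUe⟩ := (Finset.mem_filter.1 hU).2
  have hnbs : nbs X (U : Set V) = (fnb X U : Set V) := by
    ext w
    rw [Finset.mem_coe, mem_fnb]
    rfl
  refine ⟨(U : Set V), hUc, ?_, ?_⟩
  · by_contra hemp
    rw [Set.not_nonempty_iff_eq_empty] at hemp
    have huniv : U = Finset.univ := by
      obtain ⟨⟨u, hu⟩⟩ := hUc.nonempty
      by_contra hne
      obtain ⟨x, hx⟩ : ∃ x, x ∉ U := by
        by_contra h
        push Not at h
        exact hne (Finset.eq_univ_iff_forall.2 h)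
      obtain ⟨w⟩ := hconn.preconnected u x
      obtain ⟨d, _, hd1, hd2⟩ := w.exists_boundary_dart (U : Set V) hu hx
      have : d.snd ∈ nbs X (U : Set V) := ⟨hd2, d.fst, hd1, d.adj⟩
      rw [hemp] at this
      exact this
    rw [hnbs] at hemp
    have h0 : fnb X U = ∅ := by exact_mod_cast hemp
    rw [h0, huniv] at hUe
    simp [ecount] at hUe
    omega
  · intro w hw
    rw [hnbs, Finset.mem_coe] at hw
    have hset : {x | x ∈ nbs X (U : Set V) ∧ X.Adj w x} =
        (((fnb X U).filter (X.Adj w) : Finset V) : Set V) := by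
      ext x
      rw [Set.mem_ofPred_eq, hnbs]
      simp
    rw [hset, Set.ncard_coe_finset]
    obtain ⟨hwU, u, hu, huw⟩ := (mem_fnb X).1 hw
    have hconn' : (X.induce ((insert w U : Finset V) : Set V)).Connected := by
      have h := conn_union (conn_singleton X w) hUc rfl hu huw.symm
      have h2 : ((insert w U : Finset V) : Set V) = {w} ∪ (U : Set V) := by
        rw [Finset.coe_insert, Set.insert_eq]
      rw [h2]
      exact h
    have hnot : ¬ P (insert w U) := by
      intro h
      have := hmax _ (Finset.mem_filter.2 ⟨Finset.mem_univ _, h⟩)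
      rw [Finset.card_insert_of_notMem hwU] at this
      omega
    have hlt : ecount X (insert w U)ᶜ + 2 * (fnb X (insert w U)).card <
        2 * c * ((insert w U)ᶜ.card + 1) := by
      by_contra h
      push Not at h
      exact hnot ⟨hconn', h⟩
    have hw' : w ∉ (insert w U)ᶜ := by simp
    have hins : insert w (insert w U)ᶜ = Uᶜ := by
      ext x
      simp only [Finset.mem_insert, Finset.mem_compl, not_or]
      constructor
      · rintro (rfl | h)
        · exact hwU
        · exact h.2
      · intro h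
        by_cases hx : x = w
        · exact Or.inl hx
        · exact Or.inr ⟨hx, h⟩
    have hcard : Uᶜ.card = (insert w U)ᶜ.card + 1 := by
      rw [← hins, Finset.card_insert_of_notMem hw']
    have hec := ecount_insert X (insert w U)ᶜ w hw'
    rw [hins] at hec
    set A := (fnb X U).erase w with hA
    set B := ((insert w U)ᶜ).filter (X.Adj w) with hB
    have hAcard : A.card + 1 = (fnb X U).card := Finset.card_erase_add_one hw
    have hunion : A ∪ B ⊆ fnb X (insert w U) := by
      intro x hx
      rw [mem_fnb]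
      rcases Finset.mem_union.1 hx with hx | hx
      · rw [hA, Finset.mem_erase, mem_fnb] at hx
        obtain ⟨hxw, hxU, y, hy, hyx⟩ := hx
        refine ⟨?_, y, Finset.mem_insert_of_mem hy, hyx⟩
        rw [Finset.mem_insert, not_or]
        exact ⟨hxw, hxU⟩
      · rw [hB, Finset.mem_filter, Finset.mem_compl] at hx
        exact ⟨hx.1, w, Finset.mem_insert_self _ _, hx.2⟩
    have hinter : A ∩ B ⊆ (fnb X U).filter (X.Adj w) := by
      intro x hx
      rw [Finset.mem_inter, hA, hB, Finset.mem_erase, Finset.mem_filter] at hx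
      exact Finset.mem_filter.2 ⟨hx.1.2, hx.2.2⟩
    have h1 := Finset.card_le_card hunion
    have h2 := Finset.card_le_card hinter
    have h3 := Finset.card_union_add_card_inter A B
    rw [hec, hcard] at hUe
    have h4 : 2 * c * ((insert w U)ᶜ.card + 1 + 1) =
        2 * c * ((insert w U)ᶜ.card + 1) + 2 * c := by ring
    rw [h4] at hUe
    omega

/-- a graph of minimum degree at least `2 ^ j` has a complete minor on `j + 2` vertices -/
theorem hasKMinor_of_minDegree (j : ℕ) : ∀ (V : Type u) [Finite V] [Nonempty V]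
    (X : SimpleGraph V), (∀ v, 2 ^ j ≤ (X.neighborSet v).ncard) → HasKMinor X (j + 2) := by
  classical
  induction j with
  | zero =>
    intro V _ _ X hdeg
    obtain ⟨v⟩ := ‹Nonempty V›
    have h := hdeg v
    obtain ⟨w, hw⟩ : (X.neighborSet v).Nonempty := by
      rw [Set.nonempty_iff_ne_empty]
      intro h0
      rw [h0, Set.ncard_empty] at h
      omega
    have hvw : X.Adj v w := hw
    have h0 : ∀ i : Fin 2, i = 0 ∨ i = 1 := by decide
    refine ⟨![{v}, {w}], ?_, ?_, ?_⟩
    · intro i
      rcases h0 i with rfl | rfl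
      · exact conn_singleton X v
      · exact conn_singleton X w
    · intro i j hij
      rcases h0 i with rfl | rfl <;> rcases h0 j with rfl | rfl
      · exact absurd rfl hij
      · simpa using hvw.ne
      · simpa using hvw.ne.symm
      · exact absurd rfl hij
    · intro i j hij
      rcases h0 i with rfl | rfl <;> rcases h0 j with rfl | rfl
      · exact absurd rfl hij
      · exact ⟨v, rfl, w, rfl, hvw⟩
      · exact ⟨w, rfl, v, rfl, hvw.symm⟩
      · exact absurd rfl hij
  | succ j ih =>
    intro V _ _ X hdeg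
    obtain ⟨v₀⟩ := ‹Nonempty V›
    set C : Set V := {v | X.Reachable v₀ v} with hC
    have hclosed : ∀ v ∈ C, ∀ w, X.Adj v w → w ∈ C := fun v hv w h =>
      Reachable.trans hv h.reachable
    have hCconn : (X.induce C).Connected := by
      refine conn_of_base (b := v₀) (Reachable.refl _) ?_
      rintro a ⟨w⟩
      have key : ∀ (u a : V) (w : X.Walk u a), u ∈ C →
          Relation.ReflTransGen (StepIn X C) u a := by
        intro u a w
        induction w with
        | nil => exact fun _ => Relation.ReflTransGen.refl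
        | cons h _ ih =>
          intro hu
          have hv := hclosed _ hu _ h
          exact Relation.ReflTransGen.head ⟨h, hv⟩ (ih hv)
      exact key _ _ w (Reachable.refl _)
    have hdegC : ∀ v : C, 2 * 2 ^ j ≤ ((X.induce C).neighborSet v).ncard := by
      intro v
      have h1 := hdeg v.1
      have h2 : X.neighborSet v.1 = Subtype.val '' ((X.induce C).neighborSet v) := by
        ext w
        constructor
        · intro hw
          exact ⟨⟨w, hclosed v.1 v.2 w hw⟩, hw, rfl⟩
        · rintro ⟨w, hw, rfl⟩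
          exact hw
      rw [h2, Set.ncard_image_of_injective _ Subtype.val_injective] at h1
      rw [pow_succ] at h1
      omega
    obtain ⟨U, hU, hne, hUd⟩ := exists_dense_nbs (X.induce C) (2 ^ j) (by positivity) hCconn hdegC
    refine hasKMinor_induce (C := C) ?_
    have : Nonempty (nbs (X.induce C) U) := hne.to_subtype
    refine hasKMinor_cons hU (ih (nbs (X.induce C) U) _ ?_)
    intro w
    have h1 := hUd w.1 w.2
    have h2 : {x | x ∈ nbs (X.induce C) U ∧ (X.induce C).Adj w.1 x} =
        Subtype.val '' (((X.induce C).induce (nbs (X.induce C) U)).neighborSet w) := by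
      ext x
      constructor
      · rintro ⟨hx, hx'⟩
        exact ⟨⟨x, hx⟩, hx', rfl⟩
      · rintro ⟨x, hx, rfl⟩
        exact ⟨x.2, hx⟩
    rw [h2, Set.ncard_image_of_injective _ Subtype.val_injective] at h1
    exact h1

end Pool.Agent.Y396
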