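import Pool.Agent.Y396.Cayley

set_option autoImplicit false

namespace Pool.Agent.Y396

open SimpleGraph MulAction Pool.Agent.Helper999.HM

universe u v w

/-- the graph left after deleting all edges which meet `F` -/
def offGraph {V : Type v} (X : SimpleGraph V) (F : Set V) : SimpleGraph V where
  Adj a b := X.Adj a b ∧ a ∉ F ∧ b ∉ F
  symm := ⟨fun _ _ h => ⟨h.1.symm, h.2.2, h.2.1⟩⟩
  loopless := ⟨fun a h => X.loopless.irrefl a h.1⟩

theorem off_not_mem {V : Type v} {X : SimpleGraph V} {F : Set V} {a b : V} (ha : a ∉ F)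
    (h : (offGraph X F).Reachable a b) : b ∉ F := by
  obtain ⟨w⟩ := h
  induction w with
  | nil => exact ha
  | cons h _ ih => exact ih h.2.2

theorem off_mem {V : Type v} {X : SimpleGraph V} {F : Set V} {a b : V} (ha : a ∈ F)
    (h : (offGraph X F).Reachable a b) : b = a := by
  obtain ⟨w⟩ := h
  cases w with
  | nil => rfl
  | cons h _ => exact absurd ha h.2.1

theorem off_conn {V : Type v} {X : SimpleGraph V} {F : Set V} (a : V) :
    (X.induce {b | (offGraph X F).Reachable a b}).Connected := by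
  refine conn_of_base (b := a) (Reachable.refl _) ?_
  rintro b ⟨w⟩
  have key : ∀ (u b : V) (w : (offGraph X F).Walk u b), (offGraph X F).Reachable a u →
      Relation.ReflTransGen (StepIn X {b | (offGraph X F).Reachable a b}) u b := by
    intro u b w
    induction w with
    | nil => exact fun _ => Relation.ReflTransGen.refl
    | cons h _ ih =>
      intro hu
      have hv := Reachable.trans hu h.reachable
      exact Relation.ReflTransGen.head ⟨h.1, hv⟩ (ih hv)
  exact key _ _ w (Reachable.refl _)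

theorem reach_smul {G : Type u} [Group G] {V : Type v} [MulAction G V] {E : SimpleGraph V}
    (hE : ∀ (g : G) (a b : V), E.Adj a b → E.Adj (g • a) (g • b)) (g : G) {a b : V}
    (h : E.Reachable a b) : E.Reachable (g • a) (g • b) := by
  obtain ⟨w⟩ := h
  induction w with
  | nil => exact Reachable.refl _
  | cons h _ ih => exact (hE g _ _ h).reachable.trans ih

theorem fib_conn {V : Type v} {Z : Type w} {Y : SimpleGraph V} {π : V → Z}
    (hfib : ∀ a b : V, π a = π b → Relation.ReflTransGen (fun x y => Y.Adj x y ∧ π x = π y) a b)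
    {z : Z} (hne : ∃ v, π v = z) : (Y.induce {v | π v = z}).Connected := by
  obtain ⟨v₀, hv₀⟩ := hne
  refine conn_of_base (b := v₀) hv₀ ?_
  intro v hv
  have h := hfib v₀ v (hv₀.trans (Eq.symm hv))
  have key : ∀ v, Relation.ReflTransGen (fun x y => Y.Adj x y ∧ π x = π y) v₀ v →
      π v = z ∧ Relation.ReflTransGen (StepIn Y {v | π v = z}) v₀ v := by
    intro v h
    induction h with
    | refl => exact ⟨hv₀, Relation.ReflTransGen.refl⟩
    | tail _ hst ih =>
      have h5 : π _ = z := hst.2.symm.trans ih.1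
      exact ⟨h5, Relation.ReflTransGen.tail ih.2 ⟨hst.1, h5⟩⟩
  exact (key v h).2

theorem pow_inj_quot {K : Type u} [Group K] [Finite K] (M : Subgroup K) [M.Normal] {N : ℕ}
    (hK : BigPrimes N (Nat.card K)) {s : K} (hs : s ∉ M) {i j : ℕ} (hi : i < N) (hj : j < N)
    (h : ((s : K ⧸ M)) ^ i = (s : K ⧸ M) ^ j) : i = j := by
  have hord : N ≤ orderOf (s : K ⧸ M) := by
    refine (hK.of_dvd (Subgroup.card_quotient_dvd_card M)).le (orderOf_dvd_natCard _) ?_
      (orderOf_pos _).ne'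
    intro h1
    rw [orderOf_eq_one_iff, QuotientGroup.eq_one_iff] at h1
    exact hs h1
  exact pow_injOn_Iio_orderOf (Set.mem_Iio.2 (hi.trans_le hord))
      (Set.mem_Iio.2 (hj.trans_le hord)) h

/-- Claim 5: setwise stabilizers of the components outside the regular orbits are small -/
theorem stab_comp {G : Type u} [Group G] [Finite G] {N k : ℕ}
    (hG : BigPrimes N (Nat.card G)) (hN : 2 ^ k ≤ N) {V : Type v} [Finite V] [MulAction G V]
    {X : SimpleGraph V} (hadj : ∀ (g : G) (a b : V), X.Adj a b → X.Adj (g • a) (g • b))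
    (hconn : X.Connected) (hno : ¬ HasKMinor X k) (H : Subgroup G) (hHn : H.Normal)
    (hle : ∀ v : V, stabilizer G v ≤ H) {F : Set V} (hF : ∀ v, v ∈ F ↔ stabilizer G v = H)
    (hFne : F.Nonempty) (hH : ∀ h ∈ H, ∀ v : V, (offGraph X F).Reachable v (h • v))
    (g : G) (v : V) (hg : (offGraph X F).Reachable v (g • v)) : g ∈ H := by
  classical
  by_cases hv : v ∈ F
  · have h1 := off_mem hv hg
    rw [← (hF v).1 hv, mem_stabilizer_iff]
    exact h1
  by_contra hgH
  set E := offGraph X F with hE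
  have hstabc : ∀ (g x : G) (v : V), x ∈ stabilizer G v ↔ g * x * g⁻¹ ∈ stabilizer G (g • v) := by
    intro g x v
    rw [mem_stabilizer_iff, mem_stabilizer_iff, mul_smul, mul_smul, inv_smul_smul,
      smul_left_cancel_iff]
  have hFinv : ∀ (g : G) (v : V), g • v ∈ F → v ∈ F := by
    intro g v h
    rw [hF] at h ⊢
    ext x
    rw [hstabc g x v, h]
    constructor
    · intro h1
      have h2 := hHn.conj_mem _ h1 g⁻¹
      have h3 : g⁻¹ * (g * x * g⁻¹) * g⁻¹⁻¹ = x := by group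
      rwa [h3] at h2
    · intro h1
      exact hHn.conj_mem _ h1 g
  have hFinv' : ∀ (g : G) (v : V), v ∈ F → g • v ∈ F := by
    intro g v h
    apply hFinv g⁻¹
    rwa [inv_smul_smul]
  have hEadj : ∀ (g : G) (a b : V), E.Adj a b → E.Adj (g • a) (g • b) := by
    intro g a b h
    exact ⟨hadj g _ _ h.1, fun h' => h.2.1 (hFinv g _ h'), fun h' => h.2.2 (hFinv g _ h')⟩
  let GD : Subgroup G :=
    { carrier := {x | E.Reachable v (x • v)}
      mul_mem' := by
        intro a b ha hb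
        have h1 := reach_smul hEadj a hb
        rw [← mul_smul] at h1
        exact Reachable.trans ha h1
      one_mem' := by
        change E.Reachable v ((1 : G) • v)
        rw [one_smul]
      inv_mem' := by
        intro a ha
        have h1 := reach_smul hEadj a⁻¹ ha
        rw [inv_smul_smul] at h1
        exact h1.symm }
  have hmem : ∀ x : G, x ∈ GD ↔ E.Reachable v (x • v) := fun _ => Iff.rfl
  set D : Set V := {w | E.Reachable v w} with hD
  have hDF : ∀ w ∈ D, w ∉ F := fun w hw => off_not_mem hv hw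
  have hDinv : ∀ (x : GD) (w : V), w ∈ D → (x : G) • w ∈ D := by
    intro x w hw
    exact Reachable.trans x.2 (reach_smul hEadj (x : G) hw)
  let act : MulAction GD D :=
    { smul := fun x w => ⟨(x : G) • w.1, hDinv x w.1 w.2⟩
      one_smul := fun w => Subtype.ext (one_smul G w.1)
      mul_smul := fun x y w => Subtype.ext (mul_smul (x : G) (y : G) w.1) }
  have hsm : ∀ (x : GD) (w : D), ((x • w : D) : V) = (x : G) • (w : V) := fun _ _ => rfl
  have hGG : BigPrimes N (Nat.card GD) := hG.of_dvd (Subgroup.card_subgroup_dvd_card GD)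
  have hDconn : (X.induce D).Connected := off_conn v
  have hDadj : ∀ (x : GD) (a b : D), (X.induce D).Adj a b → (X.induce D).Adj (x • a) (x • b) :=
    fun x a b h => hadj (x : G) a.1 b.1 h
  obtain ⟨L, hLn, π, hπ, hfib, v0, hv0⟩ := exists_center (G := GD) (V := D) hGG hN hDadj hDconn
    (fun h => hno (hasKMinor_induce h))
  -- an edge leaving `D`
  obtain ⟨d, u, hdu, huF⟩ : ∃ (d : D) (u : V), X.Adj d.1 u ∧ u ∈ F := by
    obtain ⟨u₀, hu₀⟩ := hFne
    have hu₀D : u₀ ∉ D := fun h => hDF _ h hu₀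
    obtain ⟨w⟩ := hconn.preconnected v u₀
    obtain ⟨e, _, he1, he2⟩ := w.exists_boundary_dart D (Reachable.refl _) hu₀D
    refine ⟨⟨e.fst, he1⟩, e.snd, e.adj, ?_⟩
    by_contra hnF
    apply he2
    have : E.Adj e.fst e.snd := ⟨e.adj, hDF _ he1, hnF⟩
    exact Reachable.trans he1 this.reachable
  -- an element of `H` outside `L`
  obtain ⟨h, hhH, hhv0⟩ : ∃ h ∈ H, h • v0.1 ≠ v0.1 := by
    by_contra hcon
    push Not at hcon
    apply hDF _ v0.2
    rw [hF]
    exact le_antisymm (hle _) (fun x hx => hcon x hx)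
  have hhG : h ∈ GD := hH h hhH v
  have hhL : (⟨h, hhG⟩ : GD) ∉ L := by
    rw [← hv0]
    intro h1
    exact hhv0 (congrArg Subtype.val h1)
  have hLH : ∀ l ∈ L, (l : G) ∈ H := by
    intro l hl
    rw [← hv0] at hl
    exact hle v0.1 (congrArg Subtype.val hl)
  have hsmq : ∀ (x : GD) (q : GD ⧸ L), x • q = (x : GD ⧸ L) * q := by
    intro x q
    obtain ⟨y, rfl⟩ := QuotientGroup.mk_surjective q
    rfl
  have hcancel : ∀ (x y : GD) (q : GD ⧸ L), x • q = y • q → (x : GD ⧸ L) = y := by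
    intro x y q hxy
    rw [hsmq, hsmq] at hxy
    exact mul_right_cancel hxy
  have htrans : ∀ q q' : GD ⧸ L, ∃ x : GD, x • q = q' := by
    intro q q'
    obtain ⟨x, hx⟩ := QuotientGroup.mk_surjective (q' * q⁻¹)
    refine ⟨x, ?_⟩
    rw [hsmq, hx, inv_mul_cancel_right]
  have hLH' : ∀ x y : GD, (x : GD ⧸ L) = y → (x : G)⁻¹ * (y : G) ∈ H := by
    intro x y hxy
    rw [QuotientGroup.eq] at hxy
    exact hLH _ hxy
  -- an edge `a b` inside `D` which leaves the `H`-class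
  obtain ⟨a, b, s, hab, ha, hb, hsH⟩ : ∃ (a b : D) (s : GD), (X.induce D).Adj a b ∧
      π a = π d ∧ π b = s • π d ∧ (s : G) ∉ H := by
    let P : Set D := {w | ∃ x : GD, (x : G) ∈ H ∧ π w = x • π d}
    have hPd : d ∈ P := ⟨1, one_mem H, (one_smul _ _).symm⟩
    have hPg : (⟨g, hg⟩ : GD) • d ∉ P := by
      rintro ⟨x, hx, hx'⟩
      rw [hπ] at hx'
      have h1 := hLH' _ _ (hcancel _ _ _ hx'.symm)
      have h2 : g = x * ((x : G)⁻¹ * g) := by group
      apply hgH
      rw [h2]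
      exact mul_mem hx h1
    obtain ⟨w⟩ := hDconn.preconnected d ((⟨g, hg⟩ : GD) • d)
    obtain ⟨e, _, he1, he2⟩ := w.exists_boundary_dart P hPd hPg
    obtain ⟨x, hx, hx'⟩ := he1
    obtain ⟨s, hs⟩ := htrans (π d) (x⁻¹ • π e.snd)
    refine ⟨x⁻¹ • e.fst, x⁻¹ • e.snd, s, hDadj _ _ _ e.adj, ?_, ?_, ?_⟩
    · rw [hπ, hx', inv_smul_smul]
    · rw [hπ, hs]
    · intro hsH
      apply he2
      refine ⟨x * s, mul_mem hx hsH, ?_⟩
      rw [mul_smul, hs, smul_inv_smul]
  set hel : GD := ⟨h, hhG⟩ with hheldef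
  have hkN : k ≤ N := (Nat.lt_two_pow_self).le.trans hN
  have hkpos : 0 < k := by
    rcases Nat.eq_zero_or_pos k with h | h
    · exfalso
      apply hno
      subst h
      exact ⟨fun i => i.elim0, fun i => i.elim0, fun i => i.elim0, fun i => i.elim0⟩
    · exact h
  have hsinj : ∀ i j : ℕ, i < k → j < k → ((s : G) ^ i)⁻¹ * (s : G) ^ j ∈ H → i = j := by
    intro i j hi hj hij
    refine pow_inj_quot H hG hsH (hi.trans_le hkN) (hj.trans_le hkN) ?_
    have h1 : (((s : G) ^ i : G) : G ⧸ H) = (((s : G) ^ j : G) : G ⧸ H) := by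
      rw [QuotientGroup.eq]
      exact hij
    exact h1
  have hmodel := model_of_inj (E := X.induce D) (Y := X) Subtype.val Subtype.val_injective
    (fun _ _ h => h)
  have hcoe : ∀ i j : ℕ, ((hel ^ i * s ^ j : GD) : G) = h ^ i * (s : G) ^ j := by
    intro i j
    rfl
  apply hno
  refine hasKMinor_of_biclique
    (fun i : Fin k => {w | ∃ w' ∈ {w' : D | ∃ j, j < (k - 1) + 1 ∧
      w' ∈ {w' : D | π w' = (hel ^ (i : ℕ) * s ^ j) • π d}}, w = (w' : V)})
    (fun j : Fin k => {w | w = (s : G) ^ (j : ℕ) • u}) ?_ ?_ ?_ ?_ ?_ ?_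
  · intro i
    refine hmodel.conn_biUnion ?_
    refine conn_chain (fun j => fib_conn hfib ⟨(hel ^ (i : ℕ) * s ^ j) • d, hπ _ _⟩) ?_ _
    intro j
    refine ⟨(hel ^ (i : ℕ) * s ^ j) • a, ?_, (hel ^ (i : ℕ) * s ^ j) • b, ?_, hDadj _ _ _ hab⟩
    · rw [Set.mem_ofPred_eq, hπ, ha]
    · rw [Set.mem_ofPred_eq, hπ, hb, ← mul_smul, mul_assoc, ← pow_succ]
  · intro j
    exact conn_singleton_val _
  · intro i i' hne
    rw [Set.disjoint_left]
    rintro w ⟨w', ⟨j, hj, hw'⟩, rfl⟩ ⟨w'', ⟨j', hj', hw''⟩, hww⟩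
    have := Subtype.ext hww
    subst this
    rw [Set.mem_ofPred_eq] at hw' hw''
    have h1 := hcancel _ _ _ (hw'.symm.trans hw'')
    have h2 := hLH' _ _ h1
    rw [hcoe, hcoe] at h2
    have hjj : j = j' := by
      apply hsinj j j' (by omega) (by omega)
      have e1 : (h ^ (i : ℕ) * (s : G) ^ j)⁻¹ * (h ^ (i' : ℕ) * (s : G) ^ j') =
          (((s : G) ^ j)⁻¹ * ((h ^ (i : ℕ))⁻¹ * h ^ (i' : ℕ)) * (((s : G) ^ j)⁻¹)⁻¹) *
          (((s : G) ^ j)⁻¹ * (s : G) ^ j') := by group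
      rw [e1] at h2
      have h3 : ((s : G) ^ j)⁻¹ * ((h ^ (i : ℕ))⁻¹ * h ^ (i' : ℕ)) * (((s : G) ^ j)⁻¹)⁻¹ ∈ H :=
        hHn.conj_mem _ (mul_mem (inv_mem (pow_mem hhH _)) (pow_mem hhH _)) _
      exact (Subgroup.mul_mem_cancel_left H h3).1 h2
    subst hjj
    have h1' : ((hel : GD ⧸ L)) ^ (i : ℕ) * ((s ^ j : GD) : GD ⧸ L) =
        (hel : GD ⧸ L) ^ (i' : ℕ) * ((s ^ j : GD) : GD ⧸ L) := h1
    have h3 : ((hel : GD ⧸ L)) ^ (i : ℕ) = (hel : GD ⧸ L) ^ (i' : ℕ) := mul_right_cancel h1'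
    exact hne (Fin.ext (pow_inj_quot L hGG hhL (i.2.trans_le hkN) (i'.2.trans_le hkN) h3))
  · intro j j' hne
    rw [Set.disjoint_left]
    intro w hw hw'
    rw [Set.mem_ofPred_eq] at hw hw'
    have h1 : ((s : G) ^ (j : ℕ))⁻¹ * (s : G) ^ (j' : ℕ) ∈ H := by
      rw [← (hF u).1 huF, mem_stabilizer_iff, mul_smul, inv_smul_eq_iff, ← hw, ← hw']
    exact hne (Fin.ext (hsinj j j' j.2 j'.2 h1))
  · intro i j
    rw [Set.disjoint_left]
    rintro w ⟨w', _, rfl⟩ hw
    rw [Set.mem_ofPred_eq] at hw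
    apply hDF _ w'.2
    rw [hw]
    exact hFinv' _ _ huF
  · intro i j
    refine ⟨(h ^ (i : ℕ) * (s : G) ^ (j : ℕ)) • (d : V), ⟨(hel ^ (i : ℕ) * s ^ (j : ℕ)) • d,
      ⟨j, by omega, hπ _ _⟩, rfl⟩, (s : G) ^ (j : ℕ) • u, rfl, ?_⟩
    have h1 := hadj (h ^ (i : ℕ) * (s : G) ^ (j : ℕ)) _ _ hdu
    have h2 : (h ^ (i : ℕ) * (s : G) ^ (j : ℕ)) • u = (s : G) ^ (j : ℕ) • u := by
      have h3 : h ^ (i : ℕ) * (s : G) ^ (j : ℕ) =
          (s : G) ^ (j : ℕ) * (((s : G) ^ (j : ℕ))⁻¹ * h ^ (i : ℕ) * (((s : G) ^ (j : ℕ))⁻¹)⁻¹) := by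
        group
      have h4 : ((s : G) ^ (j : ℕ))⁻¹ * h ^ (i : ℕ) * (((s : G) ^ (j : ℕ))⁻¹)⁻¹ ∈
          stabilizer G u := by
        rw [(hF u).1 huF]
        exact hHn.conj_mem _ (pow_mem hhH _) _
      rw [h3, mul_smul, mem_stabilizer_iff.1 h4]
    rwa [h2] at h1

end Pool.Agent.Y396
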