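import Mathlib

set_option autoImplicit false

namespace Pool.Agent.Y396

/-- The class of finite groups generated by the finite cyclic groups under direct products and
permutational wreath products `(Ω → A) ⋊ B` with `Ω` a finite set on which `B` acts; the
semidirect product is formed with the coordinate action `(b • f) ω = f (b⁻¹ • ω)`. -/
inductive InW : (G : Type) → [Group G] → Prop
  | cyclic (G : Type) [Group G] [Finite G] [IsCyclic G] : InW G
  | prod (A B : Type) [Group A] [Group B] : InW A → InW B → InW (A × B)
  | wreath (A B Ω : Type) [Group A] [Group B] [MulAction B Ω] [Finite Ω] :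
      InW A → InW B → InW ((Ω → A) ⋊[mulAutArrow] B)
  | iso (A B : Type) [Group A] [Group B] : InW A → Nonempty (A ≃* B) → InW B

/-- `Y` is a subcontraction (minor) of `X`: the vertices of `Y` are represented by pairwise
disjoint vertex sets of `X` inducing connected subgraphs, adjacent vertices of `Y` by sets joined
by an edge of `X`. -/
def IsSubcontraction {m n : ℕ} (Y : SimpleGraph (Fin m)) (X : SimpleGraph (Fin n)) : Prop :=
  ∃ B : Fin m → Set (Fin n), (∀ i, (X.induce (B i)).Connected) ∧
    (∀ i j, i ≠ j → Disjoint (B i) (B j)) ∧
    ∀ i j, Y.Adj i j → ∃ a ∈ B i, ∃ b ∈ B j, X.Adj a b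

end Pool.Agent.Y396
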