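import Pool.Agent.Y396.ColAut

set_option autoImplicit false

namespace Pool.Agent.Y396

open SimpleGraph MulAction Pool.Agent.Helper999.HM

universe u v

theorem InW.of_subsingleton (G : Type) [Group G] [Subsingleton G] : InW G := by
  have : Finite G := Finite.of_subsingleton
  have : IsCyclic G := isCyclic_of_subsingleton
  exact InW.cyclic G

/-- the disconnected case -/
theorem inW_of_not_connected {V C : Type} [Finite V] {X : SimpleGraph V} {col : V → C}
    (hodd : ¬ 2 ∣ Nat.card (autC X col)) (hne : Nonempty V) (hnc : ¬ X.Connected)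
    (key : ∀ T : Set V, (∃ v, v ∉ T) → InW (suppC X col T)) : InW (autC X col) := by
  classical
  obtain ⟨v₀, w₀, hvw⟩ : ∃ v₀ w₀ : V, ¬ X.Reachable v₀ w₀ := by
    by_contra hcon
    push Not at hcon
    exact hnc ⟨hcon⟩
  set D : Set V := {w | X.Reachable v₀ w} with hD
  have hv₀ : v₀ ∈ D := Reachable.refl _
  have hle : offGraph X ∅ ≤ X := fun a b h => h.1
  have hpres : ∀ g ∈ autC X col, ∀ v, v ∈ D ↔ g v ∈ D := by
    intro g hg v
    have h1 := (swap_reach (F := ∅) hodd hg (fun f hf => absurd hf (Set.notMem_empty f)) v).mono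
      hle
    constructor
    · intro h
      exact Reachable.trans h h1
    · intro h
      exact Reachable.trans h h1.symm
  have hclosed : ∀ t ∈ D, ∀ f, f ∉ D → ¬ X.Adj t f := by
    intro t ht f hf h
    exact hf (Reachable.trans ht h.reachable)
  have hcomm : ∀ (a : suppC X col D) (b : suppC X col Dᶜ),
      Commute (Subgroup.inclusion (suppC_le X col D) a)
        (Subgroup.inclusion (suppC_le X col Dᶜ) b) := by
    rintro ⟨a, ha⟩ ⟨b, hb⟩
    apply Subtype.ext
    refine Equiv.ext (fun v => ?_)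
    change a (b v) = b (a v)
    by_cases hv : v ∈ D
    · rw [hb.2 v (fun h => h hv), hb.2 (a v) (fun h => h ((suppC_maps ha v).2 hv))]
    · rw [ha.2 v hv, ha.2 (b v)]
      exact (suppC_maps hb v).2 hv
  let φ : suppC X col D × suppC X col Dᶜ →* autC X col :=
    MonoidHom.noncommCoprod (Subgroup.inclusion (suppC_le X col D))
      (Subgroup.inclusion (suppC_le X col Dᶜ)) hcomm
  have hφ : ∀ (a : suppC X col D) (b : suppC X col Dᶜ) (v : V),
      (φ (a, b) : Equiv.Perm V) v = (a : Equiv.Perm V) ((b : Equiv.Perm V) v) := fun _ _ _ => rfl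
  refine InW.iso _ _ (InW.prod _ _ (key D ⟨w₀, hvw⟩) (key Dᶜ ⟨v₀, fun h => h hv₀⟩))
    ⟨MulEquiv.ofBijective φ ⟨?_, ?_⟩⟩
  · rw [injective_iff_map_eq_one]
    rintro ⟨a, b⟩ hab
    have h1 : ∀ v, (a : Equiv.Perm V) ((b : Equiv.Perm V) v) = v := by
      intro v
      rw [← hφ, hab]
      rfl
    have ha : a = 1 := by
      apply Subtype.ext
      refine Equiv.ext (fun v => ?_)
      by_cases hv : v ∈ D
      · have h2 := h1 v
        rw [b.2.2 v (fun h => h hv)] at h2
        exact h2
      · exact a.2.2 v hv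
    subst ha
    have hb : b = 1 := by
      apply Subtype.ext
      exact Equiv.ext (fun v => h1 v)
    rw [hb]
    rfl
  · rintro ⟨g, hg⟩
    obtain ⟨a, ha, ha'⟩ := cutlem hg (T := D) (fun v hv => (hpres g hg v).1 hv)
      (fun t ht f hf h => absurd h (hclosed t ht f hf))
    obtain ⟨b, hb, hb'⟩ := cutlem hg (T := Dᶜ) (fun v hv h => hv ((hpres g hg v).2 h))
      (fun t ht f hf h => absurd h.symm (hclosed f (not_not.1 hf) t ht))
    refine ⟨(⟨a, ha⟩, ⟨b, hb⟩), ?_⟩
    apply Subtype.ext
    refine Equiv.ext (fun v => ?_)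
    rw [hφ]
    change a (b v) = g v
    by_cases hv : v ∈ D
    · rw [hb.2 v (fun h => h hv), ha' v hv]
    · have hv' : v ∈ Dᶜ := hv
      rw [hb' v hv', ha.2]
      intro h
      exact hv ((hpres g hg v).2 h)

/-- the connected case -/
theorem inW_of_connected {V C : Type} [Finite V] {X : SimpleGraph V} {col : V → C} {N k : ℕ}
    (hN : 2 ^ k ≤ N) (hN2 : 2 * k ≤ N) (hG : BigPrimes N (Nat.card (autC X col)))
    (hodd : ¬ 2 ∣ Nat.card (autC X col)) (hconn : X.Connected) (hno : ¬ HasKMinor X k)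
    (key : ∀ T : Set V, (∃ v, v ∉ T) → InW (suppC X col T)) : InW (autC X col) := by
  classical
  have hadj : ∀ (g : autC X col) (a b : V), X.Adj a b → X.Adj (g • a) (g • b) :=
    fun g a b h => (g.2.1 a b).2 h
  obtain ⟨H, hHn, π, hπ, hfib, v0, hv0⟩ := exists_center (G := autC X col) hG hN hadj hconn hno
  have hle : ∀ v : V, stabilizer (autC X col) v ≤ H := by
    intro v g hg
    rw [mem_stabilizer_iff] at hg
    obtain ⟨x, hx⟩ := QuotientGroup.mk_surjective (π v)
    have h1 := hπ g v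
    rw [hg, ← hx] at h1
    have h2 : g • (x : autC X col ⧸ H) = ((g * x : autC X col) : autC X col ⧸ H) := rfl
    rw [h2, QuotientGroup.eq] at h1
    have h3 := hHn.conj_mem _ h1 x
    have h4 : x * (x⁻¹ * (g * x)) * x⁻¹ = g := by group
    rwa [h4] at h3
  set F : Set V := {v | stabilizer (autC X col) v = H} with hFdef
  have hF : ∀ v, v ∈ F ↔ stabilizer (autC X col) v = H := fun _ => Iff.rfl
  have hv0F : v0 ∈ F := hv0
  have hFfix : ∀ h ∈ H, ∀ f ∈ F, h • f = f := by
    intro h hh f hf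
    rw [hF] at hf
    rw [← hf] at hh
    exact hh
  have hH : ∀ h ∈ H, ∀ v : V, (offGraph X F).Reachable v (h • v) := by
    intro h hh v
    exact swap_reach hodd h.2 (fun f hf => hFfix h hh f hf) v
  have hstab := fun (g : autC X col) (v : V) => stab_comp hG hN hadj hconn hno H hHn hle hF
    ⟨v0, hv0F⟩ hH g v
  have hstabc : ∀ (g x : autC X col) (v : V), x ∈ stabilizer (autC X col) v ↔
      g * x * g⁻¹ ∈ stabilizer (autC X col) (g • v) := by
    intro g x v
    rw [mem_stabilizer_iff, mem_stabilizer_iff, mul_smul, mul_smul, inv_smul_smul,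
      smul_left_cancel_iff]
  have hFinv : ∀ (g : autC X col) (v : V), g • v ∈ F → v ∈ F := by
    intro g v h
    rw [hF] at h ⊢
    ext1 x
    rw [hstabc g x v, h]
    constructor
    · intro h1
      have h2 := hHn.conj_mem _ h1 g⁻¹
      have h3 : g⁻¹ * (g * x * g⁻¹) * g⁻¹⁻¹ = x := by group
      rwa [h3] at h2
    · intro h1
      exact hHn.conj_mem _ h1 g
  have hFinv' : ∀ (g : autC X col) (v : V), v ∈ F → g • v ∈ F := by
    intro g v h
    apply hFinv g⁻¹
    rwa [inv_smul_smul]
  set E := offGraph X F with hE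
  have hEadj : ∀ (g : autC X col) (a b : V), E.Adj a b → E.Adj (g • a) (g • b) := by
    intro g a b h
    exact ⟨hadj g _ _ h.1, fun h' => h.2.1 (hFinv g _ h'), fun h' => h.2.2 (hFinv g _ h')⟩
  obtain ⟨τ, hτ⟩ := exists_tau E hEadj H hstab
  have hτe : ∀ (g : autC X col) (v : V), τ (g • v) = g • τ v := fun g v => hτ g v _ (Reachable.refl _)
  have hτa : ∀ a b : V, E.Adj a b → τ a = τ b := by
    intro a b hab
    have h1 := hτ 1 a b (by rw [one_smul]; exact hab.reachable)
    rw [one_smul] at h1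
    exact h1.symm
  set T : Set V := {v | v ∉ F ∧ τ v = ((1 : autC X col) : autC X col ⧸ H)} with hT
  have hv0T : v0 ∉ T := fun h => h.1 hv0F
  have hHq : ∀ h ∈ H, ∀ q : autC X col ⧸ H, h • q = q := by
    intro h hh q
    obtain ⟨x, rfl⟩ := QuotientGroup.mk_surjective q
    have h2 : h • (x : autC X col ⧸ H) = ((h * x : autC X col) : autC X col ⧸ H) := rfl
    rw [h2, QuotientGroup.eq]
    have h3 := hHn.conj_mem _ (inv_mem hh) x⁻¹
    have h4 : x⁻¹ * h⁻¹ * x⁻¹⁻¹ = (h * x)⁻¹ * x := by group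
    rwa [h4] at h3
  have hTH : ∀ h ∈ H, ∀ v ∈ T, h • v ∈ T := by
    intro h hh v hv
    refine ⟨fun h' => hv.1 (hFinv h v h'), ?_⟩
    rw [hτe, hHq h hh, hv.2]
  have hcut : ∀ h : autC X col, ∃ σ : suppC X col T, h ∈ H → ∀ v ∈ T, (σ : Equiv.Perm V) v =
      h • v := by
    intro h
    by_cases hh : h ∈ H
    · obtain ⟨σ, hσ, hσ'⟩ := cutlem h.2 (T := T) (hTH h hh) (by
        intro t ht f hf htf
        by_cases hfF : f ∈ F
        · exact hFfix h hh f hfF
        · exfalso
          apply hf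
          refine ⟨hfF, ?_⟩
          rw [← hτa t f ⟨htf, ht.1, hfF⟩, ht.2])
      exact ⟨⟨σ, hσ⟩, fun _ => hσ'⟩
    · exact ⟨1, fun h' => absurd h' hh⟩
  choose ρ hρ using hcut
  have hext : ∀ a b : suppC X col T, (∀ v ∈ T, (a : Equiv.Perm V) v = (b : Equiv.Perm V) v) →
      a = b := by
    intro a b hab
    apply Subtype.ext
    refine Equiv.ext (fun v => ?_)
    by_cases hv : v ∈ T
    · exact hab v hv
    · rw [a.2.2 v hv, b.2.2 v hv]
  have hout : ∀ q : autC X col ⧸ H, ((q.out : autC X col) : autC X col ⧸ H) = q :=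
    fun q => Quotient.out_eq' q
  have hτin : ∀ v : V, (τ v).out⁻¹ • τ v = ((1 : autC X col) : autC X col ⧸ H) := by
    intro v
    have h1 : (τ v).out⁻¹ • (((τ v).out : autC X col) : autC X col ⧸ H) =
        (((τ v).out⁻¹ * (τ v).out : autC X col) : autC X col ⧸ H) := rfl
    rw [hout, inv_mul_cancel] at h1
    exact h1
  have hinT : ∀ v : V, v ∉ F → (τ v).out⁻¹ • v ∈ T := by
    intro v hv
    refine ⟨fun h' => hv (hFinv _ _ h'), ?_⟩
    rw [hτe, hτin]
  have houtT : ∀ (q : autC X col ⧸ H) (v : V), v ∈ T → τ (q.out • v) = q := by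
    intro q v hv
    rw [hτe, hv.2]
    have h1 : q.out • ((1 : autC X col) : autC X col ⧸ H) =
        ((q.out * 1 : autC X col) : autC X col ⧸ H) := rfl
    rw [h1, mul_one, hout]
  have hA : InW (suppC X col T) := key T ⟨v0, hv0T⟩
  -- the quotient is abelian
  have hQ : InW (autC X col ⧸ H) := by
    let Z : SimpleGraph (autC X col ⧸ H) :=
      { Adj := fun q q' => q ≠ q' ∧ ∃ a b, π a = q ∧ π b = q' ∧ X.Adj a b
        symm := ⟨by
          rintro q q' ⟨hne, a, b, ha, hb, hab⟩
          exact ⟨hne.symm, b, a, hb, ha, hab.symm⟩⟩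
        loopless := ⟨fun q h => h.1 rfl⟩ }
    have hπsurj : ∀ q, ∃ v, π v = q := by
      intro q
      obtain ⟨x, hx⟩ := QuotientGroup.mk_surjective (π v0)
      obtain ⟨y, hy⟩ := QuotientGroup.mk_surjective q
      refine ⟨(y * x⁻¹) • v0, ?_⟩
      rw [hπ, ← hx, ← hy]
      have h1 : (y * x⁻¹) • (x : autC X col ⧸ H) =
        ((y * x⁻¹ * x : autC X col) : autC X col ⧸ H) := rfl
      rw [h1, inv_mul_cancel_right]
    have hmodel : Model Z X (fun q => {v | π v = q}) := by
      refine ⟨fun q => fib_conn hfib (hπsurj q), ?_, ?_⟩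
      · intro q q' hne
        rw [Set.disjoint_left]
        intro v hv hv'
        exact hne ((Eq.symm hv).trans hv')
      · rintro q q' ⟨_, a, b, ha, hb, hab⟩
        exact ⟨a, ha, b, hb, hab⟩
    have hZconn : Z.Connected := by
      have : Nonempty (autC X col ⧸ H) := ⟨π v0⟩
      refine ⟨fun q q' => ?_⟩
      obtain ⟨v, rfl⟩ := hπsurj q
      obtain ⟨w, rfl⟩ := hπsurj q'
      obtain ⟨p⟩ := hconn.preconnected v w
      have hk : ∀ (a b : V) (p : X.Walk a b), Z.Reachable (π a) (π b) := by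
        intro a b p
        induction p with
        | nil => exact Reachable.refl _
        | @cons a b _ h _ ih =>
          refine Reachable.trans ?_ ih
          by_cases hab : π a = π b
          · rw [hab]
          · exact Adj.reachable ⟨hab, a, b, rfl, rfl, h⟩
      exact hk v w p
    refine InW.of_comm _ (comm_of_cayley (hG.of_dvd (Subgroup.card_quotient_dvd_card H)) hN hN2 Z
      ?_ hZconn (fun h => hno (hmodel.hasKMinor h)))
    rintro g q q' ⟨hne, a, b, rfl, rfl, hab⟩
    obtain ⟨x, rfl⟩ := QuotientGroup.mk_surjective g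
    have h1 : ∀ q : autC X col ⧸ H, (x : autC X col ⧸ H) * q = x • q := by
      intro q
      obtain ⟨y, rfl⟩ := QuotientGroup.mk_surjective q
      rfl
    refine ⟨fun h => hne (mul_left_cancel h), x • a, x • b, ?_, ?_, hadj x a b hab⟩
    · rw [hπ, h1]
    · rw [hπ, h1]
  suffices hiso : Nonempty (autC X col ≃*
      ((autC X col ⧸ H) → suppC X col T) ⋊[mulAutArrow] (autC X col ⧸ H)) by
    obtain ⟨e⟩ := hiso
    exact InW.iso _ _ (InW.wreath (suppC X col T) (autC X col ⧸ H) (autC X col ⧸ H) hA hQ)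
      ⟨e.symm⟩
  refine wreath_iso H ρ ?_ ?_ ?_
  · intro x hx y hy
    apply hext
    intro v hv
    rw [hρ (x * y) (mul_mem hx hy) v hv, mul_smul]
    change x • y • v = (ρ x : Equiv.Perm V) ((ρ y : Equiv.Perm V) v)
    rw [hρ y hy v hv, hρ x hx _ (hTH y hy v hv)]
  · intro h hh hq
    apply Subtype.ext
    refine Equiv.ext (fun v => ?_)
    change h • v = v
    by_cases hv : v ∈ F
    · exact hFfix h hh v hv
    · have h1 := hinT v hv
      have h2 : (τ v).out⁻¹ * h * (τ v).out ∈ H := by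
        have h3 := hHn.conj_mem _ hh (τ v).out⁻¹
        rwa [inv_inv] at h3
      have h3 := hρ _ h2 _ h1
      rw [hq, mul_smul, mul_smul, smul_inv_smul] at h3
      change (τ v).out⁻¹ • v = _ at h3
      exact (smul_left_cancel _ h3).symm
  · intro f
    have hfT : ∀ q : autC X col ⧸ H, ∀ v, (f q : Equiv.Perm V) v ∈ T ↔ v ∈ T := fun q v =>
      suppC_maps (f q).2 v
    let fA : (autC X col ⧸ H) → autC X col := fun q => ⟨(f q : Equiv.Perm V), (f q).2.1⟩
    have hfA : ∀ q v, fA q • v = (f q : Equiv.Perm V) v := fun _ _ => rfl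
    have hfAF : ∀ q, ∀ v ∈ F, fA q • v = v := by
      intro q v hv
      rw [hfA]
      exact (f q).2.2 v (fun h => h.1 hv)
    let g : V → autC X col := fun v => (τ v).out * fA (τ v) * (τ v).out⁻¹
    have hgF : ∀ u, ∀ v ∈ F, g u • v = v := by
      intro u v hv
      change ((τ u).out * fA (τ u) * (τ u).out⁻¹) • v = v
      rw [mul_smul, mul_smul, hfAF _ _ (hFinv' _ _ hv), smul_inv_smul]
    have hgτ : ∀ v, v ∉ F → τ (g v • v) = τ v := by
      intro v hv
      change τ (((τ v).out * fA (τ v) * (τ v).out⁻¹) • v) = τ v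
      rw [mul_smul, mul_smul]
      exact houtT _ _ ((hfT _ _).2 (hinT v hv))
    have hgnF : ∀ v, v ∉ F → g v • v ∉ F := fun v hv h => hv (hFinv _ _ h)
    obtain ⟨σ, hσ, hσv⟩ := fin_aut (X := X) (col := col) (fun v => if v ∈ F then v else g v • v) (by
      intro a b hab
      by_cases ha : a ∈ F <;> by_cases hb : b ∈ F
      · simp only [if_pos ha, if_pos hb] at hab
        exact hab
      · simp only [if_pos ha, if_neg hb] at hab
        exact absurd (hab ▸ ha) (hgnF b hb)
      · simp only [if_neg ha, if_pos hb] at hab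
        exact absurd (hab ▸ hb) (hgnF a ha)
      · simp only [if_neg ha, if_neg hb] at hab
        have h1 : τ a = τ b := by rw [← hgτ a ha, hab, hgτ b hb]
        have h2 : g a = g b := by
          change (τ a).out * fA (τ a) * (τ a).out⁻¹ = (τ b).out * fA (τ b) * (τ b).out⁻¹
          rw [h1]
        rw [h2] at hab
        exact smul_left_cancel _ hab) (by
      intro a b hab
      by_cases ha : a ∈ F <;> by_cases hb : b ∈ F
      · simp only [if_pos ha, if_pos hb]
        exact hab
      · simp only [if_pos ha, if_neg hb]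
        have h1 := hadj (g b) _ _ hab
        rwa [hgF b a ha] at h1
      · simp only [if_neg ha, if_pos hb]
        have h1 := hadj (g a) _ _ hab
        rwa [hgF a b hb] at h1
      · simp only [if_neg ha, if_neg hb]
        have h1 : τ a = τ b := hτa a b ⟨hab, ha, hb⟩
        have h2 : g a = g b := by
          change (τ a).out * fA (τ a) * (τ a).out⁻¹ = (τ b).out * fA (τ b) * (τ b).out⁻¹
          rw [h1]
        rw [h2]
        exact hadj (g b) _ _ hab) (by
      intro a
      by_cases ha : a ∈ F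
      · simp only [if_pos ha]
      · simp only [if_neg ha]
        exact (g a).2.2 a)
    have hσH : (⟨σ, hσ⟩ : autC X col) ∈ H := by
      rw [← hv0, mem_stabilizer_iff]
      change σ v0 = v0
      rw [hσv]
      exact if_pos hv0F
    refine ⟨⟨σ, hσ⟩, hσH, fun q => ?_⟩
    apply hext
    intro v hv
    have h2 : q.out⁻¹ * (⟨σ, hσ⟩ : autC X col) * q.out ∈ H := by
      have h3 := hHn.conj_mem _ hσH q.out⁻¹
      rwa [inv_inv] at h3
    rw [hρ _ h2 v hv, mul_smul, mul_smul]
    have h4 : (⟨σ, hσ⟩ : autC X col) • (q.out • v) = σ (q.out • v) := rfl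
    have h5 : q.out • v ∉ F := fun h => hv.1 (hFinv _ _ h)
    rw [h4, hσv, if_neg h5]
    change q.out⁻¹ • (((τ (q.out • v)).out * fA (τ (q.out • v)) * (τ (q.out • v)).out⁻¹) •
      (q.out • v)) = _
    rw [houtT q v hv, mul_smul, mul_smul, inv_smul_smul, inv_smul_smul, hfA]

/-- the main induction -/
theorem inW_autC {N k : ℕ} (hN : 2 ^ k ≤ N) (hN2 : 2 * k ≤ N) (hN3 : 3 ≤ N) : ∀ (n : ℕ)
    (V C : Type) [Finite V] (X : SimpleGraph V) (col : V → C), Nat.card V ≤ n →
    ¬ HasKMinor X k → BigPrimes N (Nat.card (autC X col)) → InW (autC X col) := by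
  intro n
  induction n with
  | zero =>
    intro V C _ X col hcard _ _
    have hV : IsEmpty V := by
      rcases isEmpty_or_nonempty V with h | h
      · exact h
      · have := Nat.card_pos (α := V)
        omega
    have : Subsingleton (autC X col) := ⟨fun a b => Subtype.ext (Equiv.ext (fun v => hV.elim v))⟩
    exact InW.of_subsingleton _
  | succ n ih =>
    intro V C _ X col hcard hno hG
    rcases isEmpty_or_nonempty V with hV | hV
    · have : Subsingleton (autC X col) :=
        ⟨fun a b => Subtype.ext (Equiv.ext (fun v => hV.elim v))⟩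
      exact InW.of_subsingleton _
    have hodd : ¬ 2 ∣ Nat.card (autC X col) := by
      intro h
      have := hG 2 Nat.prime_two h
      omega
    have key : ∀ T : Set V, (∃ v, v ∉ T) → InW (suppC X col T) := by
      rintro T ⟨v, hv⟩
      obtain ⟨e⟩ := supp_iso X col T
      refine InW.iso _ _ (ih T _ (X.induce T) _ ?_ (fun h => hno (hasKMinor_induce h)) ?_) ⟨e⟩
      · have h1 : T.ncard < (Set.univ : Set V).ncard :=
          Set.ncard_lt_ncard ⟨Set.subset_univ _, fun h => hv (h (Set.mem_univ v))⟩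
            (Set.toFinite _)
        rw [Set.ncard_univ] at h1
        have h2 : Nat.card T = T.ncard := rfl
        omega
      · refine hG.of_dvd ?_
        rw [Nat.card_congr e.toEquiv]
        exact Subgroup.card_dvd_of_le (suppC_le X col T)
    by_cases hconn : X.Connected
    · exact inW_of_connected hN hN2 hG hodd hconn hno key
    · exact inW_of_not_connected hodd hV hconn key

/-- the automorphism group as a group of permutations -/
def autEquiv {V : Type} (X : SimpleGraph V) :
    autC X (fun _ : V => ()) ≃* (X ≃g X) where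
  toFun σ := ⟨σ.1, fun {a b} => σ.2.1 a b⟩
  invFun e := ⟨e.toEquiv, ⟨fun _ _ => e.map_rel_iff', fun _ => rfl⟩⟩
  left_inv _ := rfl
  right_inv _ := rfl
  map_mul' _ _ := rfl

/-- graphs without a complete minor on `k` vertices whose automorphism group has no small prime
factor in its order -/
theorem inW_aut {N k : ℕ} (hN : 2 ^ k ≤ N) (hN2 : 2 * k ≤ N) (hN3 : 3 ≤ N) {V : Type} [Finite V]
    (X : SimpleGraph V) (hno : ¬ HasKMinor X k)
    (hG : ∀ p : ℕ, p.Prime → p ∣ Nat.card (X ≃g X) → N ≤ p) : InW (X ≃g X) := by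
  refine InW.iso _ _ (inW_autC hN hN2 hN3 (Nat.card V) V Unit X (fun _ => ()) le_rfl hno ?_)
    ⟨autEquiv X⟩
  rw [Nat.card_congr (autEquiv X).toEquiv]
  exact hG

/-- the theorem on subcontraction-closed classes -/
theorem main (C : ∀ n : ℕ, SimpleGraph (Fin n) → Prop)
    (hC : ∀ (m n : ℕ) (Y : SimpleGraph (Fin m)) (X : SimpleGraph (Fin n)),
      C n X → IsSubcontraction Y X → C m Y)
    (hne : ∃ (n : ℕ) (X : SimpleGraph (Fin n)), ¬ C n X) :
    ∃ N : ℕ, ∀ (G : Type) [Group G] [Finite G] (n : ℕ) (X : SimpleGraph (Fin n)), C n X →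
      Nonempty (G ≃* (X ≃g X)) → (∀ p : ℕ, p.Prime → p ∣ Nat.card G → N ≤ p) → InW G := by
  obtain ⟨k, Y, hY⟩ := hne
  refine ⟨2 ^ k + 2 * k + 3, ?_⟩
  intro G _ _ n X hX hiso hp
  obtain ⟨e⟩ := hiso
  have h1 : 2 ^ k ≤ 2 ^ k + 2 * k + 3 := by
    rw [add_assoc]
    exact Nat.le_add_right _ _
  have h2 : 2 * k ≤ 2 ^ k + 2 * k + 3 := by
    have := Nat.zero_le (2 ^ k)
    linarith
  have h3 : 3 ≤ 2 ^ k + 2 * k + 3 := Nat.le_add_left _ _
  refine InW.iso _ _ (inW_aut (N := 2 ^ k + 2 * k + 3) (k := k) h1 h2 h3 X ?_ ?_) ⟨e.symm⟩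
  · rintro ⟨B, h1, h2, h3⟩
    exact hY (hC k n Y X hX ⟨B, h1, h2, fun i j hij => h3 i j hij.ne⟩)
  · rw [← Nat.card_congr e.toEquiv]
    exact hp

end Pool.Agent.Y396
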